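import Pool.Agent.H560Bip.Theta

namespace Pool.Agent.H560Bip
namespace LD

variable {V : Type} (L : LD V)

/-- a chain of pairs `P 0, ..., P M` of vertices, consecutive pairs completely joined -/
structure IsCh (P : ℕ → Bool → V) (M : ℕ) : Prop where
  adj : ∀ i a b, i + 1 ≤ M → L.E (P i a) (P (i + 1) b)
  inj : ∀ i j a b, i ≤ M → j ≤ M → P i a = P j b → i = j ∧ a = b

variable {L} {P : ℕ → Bool → V} {M : ℕ}

/-- parity side with respect to the cycle of pairs `i`, `i + 1` -/
noncomputable def Qs (L : LD V) (P : ℕ → Bool → V) (i : ℕ) (x : ℝ) (k : ℤ) : ZMod 2 :=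
  L.side (P i false) (P i true) (P (i + 1) false) (P (i + 1) true) x k

noncomputable def Qv (L : LD V) (P : ℕ → Bool → V) (i : ℕ) (v : V) : ZMod 2 :=
  L.sideV (P i false) (P i true) (P (i + 1) false) (P (i + 1) true) v

lemma IsCh.ne_of {P : ℕ → Bool → V} (hP : L.IsCh P M) {i j : ℕ} {a b : Bool} (hi : i ≤ M)
    (hj : j ≤ M) (h : i ≠ j ∨ a ≠ b) : P i a ≠ P j b := by
  intro h'
  obtain ⟨h1, h2⟩ := hP.inj i j a b hi hj h'
  tauto

/-- the two sides of the cycle `Q i`, `i = i' + 1` -/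
lemma IsCh.sep (hP : L.IsCh P M) {i : ℕ} (hi : i + 3 ≤ M) (a b : Bool) :
    Qv L P (i + 1) (P i a) + Qv L P (i + 1) (P (i + 3) b) = 1 := by
  unfold Qv
  apply L.sep (p := P (i + 1) false) (p' := P (i + 1) true) (q := P (i + 2) false)
    (q' := P (i + 2) true) (w := P i a) (z := P (i + 3) b)
  · exact hP.adj _ _ _ (by omega)
  · exact hP.adj _ _ _ (by omega)
  · exact hP.adj _ _ _ (by omega)
  · exact hP.adj _ _ _ (by omega)
  · exact L.symm (hP.adj _ _ _ (by omega))
  · exact L.symm (hP.adj _ _ _ (by omega))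
  · exact L.symm (hP.adj _ _ _ (by omega))
  · exact L.symm (hP.adj _ _ _ (by omega))
  · exact hP.ne_of (by omega) (by omega) (Or.inr (by decide))
  · exact hP.ne_of (by omega) (by omega) (Or.inr (by decide))
  · exact hP.ne_of (by omega) (by omega) (Or.inl (by omega))
  · exact hP.ne_of (by omega) (by omega) (Or.inl (by omega))
  · exact hP.ne_of (by omega) (by omega) (Or.inl (by omega))
  · exact hP.ne_of (by omega) (by omega) (Or.inl (by omega))
  · exact hP.ne_of (by omega) (by omega) (Or.inl (by omega))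

/-- nestedness propagates -/
lemma IsCh.nest (hP : L.IsCh P M) (h0 : ∀ b, Qv L P 0 (P 2 b) = 1) (i : ℕ) (hi : i + 2 ≤ M) :
    ∀ b, Qv L P i (P (i + 2) b) = 1 := by
  induction i with
  | zero => exact h0
  | succ i ih =>
    have ih' := ih (by omega)
    intro b
    have h1 := hP.sep (i := i) (by omega) false b
    have h2 : Qv L P (i + 1) (P i false) = 0 := by
      unfold Qv at ih' ⊢
      apply L.prop (p := P i false) (p' := P i true) (q := P (i + 1) false)
        (q' := P (i + 1) true) (z := P (i + 2) false) (z' := P (i + 2) true)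
      · exact L.symm (hP.adj _ _ _ (by omega))
      · exact L.symm (hP.adj _ _ _ (by omega))
      · exact L.symm (hP.adj _ _ _ (by omega))
      · exact L.symm (hP.adj _ _ _ (by omega))
      · exact hP.adj _ _ _ (by omega)
      · exact hP.adj _ _ _ (by omega)
      · exact hP.adj _ _ _ (by omega)
      · exact hP.adj _ _ _ (by omega)
      · exact hP.ne_of (by omega) (by omega) (Or.inr (by decide))
      · exact hP.ne_of (by omega) (by omega) (Or.inr (by decide))
      · exact hP.ne_of (by omega) (by omega) (Or.inl (by omega))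
      · exact hP.ne_of (by omega) (by omega) (Or.inl (by omega))
      · exact hP.ne_of (by omega) (by omega) (Or.inl (by omega))
      · exact hP.ne_of (by omega) (by omega) (Or.inl (by omega))
      · rw [L.sideV_swap]; exact ih' false
      · rw [L.sideV_swap]; exact ih' true
    rw [h2, zero_add] at h1
    exact h1

/-- `(x, k)` is a point of the cycle `Q i` -/
def OnQ (L : LD V) (P : ℕ → Bool → V) (i : ℕ) (x : ℝ) (k : ℤ) : Prop :=
  ∃ a b, ((L.h (P i a) ≤ k ∧ k ≤ L.h (P (i + 1) b)) ∨ (L.h (P (i + 1) b) ≤ k ∧ k ≤ L.h (P i a)))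
    ∧ L.c (P i a) (P (i + 1) b) k = x

lemma IsCh.inside (hP : L.IsCh P M) (h0 : ∀ b, Qv L P 0 (P 2 b) = 1) (i : ℕ) (hi : i + 3 ≤ M)
    {x : ℝ} {k : ℤ} (hx : OnQ L P (i + 2) x k) : Qs L P i x k = 1 := by
  obtain ⟨a, b, hk, rfl⟩ := hx
  have h1 := hP.nest h0 i (by omega) a
  rw [← h1]
  unfold Qs Qv
  apply L.side_const
  · exact hP.adj _ _ _ (by omega)
  · exact hP.adj _ _ _ (by omega)
  · exact hP.adj _ _ _ (by omega)
  · exact hP.adj _ _ _ (by omega)
  · exact hP.adj _ _ _ (by omega)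
  · exact hP.ne_of (by omega) (by omega) (Or.inl (by omega))
  · exact hP.ne_of (by omega) (by omega) (Or.inl (by omega))
  · exact hP.ne_of (by omega) (by omega) (Or.inl (by omega))
  · exact hP.ne_of (by omega) (by omega) (Or.inl (by omega))
  · exact hP.ne_of (by omega) (by omega) (Or.inl (by omega))
  · exact hP.ne_of (by omega) (by omega) (Or.inl (by omega))
  · exact hP.ne_of (by omega) (by omega) (Or.inl (by omega))
  · exact hP.ne_of (by omega) (by omega) (Or.inl (by omega))
  · exact hk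

lemma B_ne {v w : V} {x : ℝ} {k : ℤ} (h : L.B v w x k ≠ 0) :
    ((L.h v < k ∧ k ≤ L.h w) ∨ (L.h w < k ∧ k ≤ L.h v)) ∧ L.c v w k < x := by
  unfold B at h
  by_contra h'
  rw [if_neg h'] at h
  exact h rfl

lemma A_ne {v w : V} {x : ℝ} {k : ℤ} (h : L.A v w x k ≠ 0) :
    ((L.h v ≤ k ∧ k < L.h w) ∨ (L.h w ≤ k ∧ k < L.h v)) ∧ L.c v w k < x := by
  unfold A at h
  by_contra h'
  rw [if_neg h'] at h
  exact h rfl

lemma exists_of_sum {f : Bool → Bool → ZMod 2}
    (h : f false false + f true false + f false true + f true true = 1) :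
    ∃ a b, f a b ≠ 0 := by
  by_contra h'
  push Not at h'
  rw [h', h', h', h'] at h
  exact absurd h (by decide)

/-- an edge of `Q i` strictly left of the point, reaching strictly below it -/
lemma IsCh.left (hP : L.IsCh P M) {i : ℕ} (hi : i + 1 ≤ M) {x : ℝ} {k : ℤ}
    (h : Qs L P i x k = 1) : ∃ a b, ((L.h (P i a) < k ∧ k ≤ L.h (P (i + 1) b)) ∨
      (L.h (P (i + 1) b) < k ∧ k ≤ L.h (P i a))) ∧ L.c (P i a) (P (i + 1) b) k < x := by
  obtain ⟨a, b, hab⟩ := exists_of_sum (f := fun a b => L.B (P i a) (P (i + 1) b) x k) h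
  exact ⟨a, b, B_ne hab⟩

lemma IsCh.left' (hP : L.IsCh P M) {i : ℕ} (hi : i + 1 ≤ M) {x : ℝ} {k : ℤ}
    (h : Qs L P i x k = 1) : ∃ a b, ((L.h (P i a) ≤ k ∧ k < L.h (P (i + 1) b)) ∨
      (L.h (P (i + 1) b) ≤ k ∧ k < L.h (P i a))) ∧ L.c (P i a) (P (i + 1) b) k < x := by
  unfold Qs at h
  rw [L.side_eq_sideA (hP.adj _ _ _ hi) (hP.adj _ _ _ hi) (hP.adj _ _ _ hi)
    (hP.adj _ _ _ hi)] at h
  obtain ⟨a, b, hab⟩ := exists_of_sum (f := fun a b => L.A (P i a) (P (i + 1) b) x k) h
  exact ⟨a, b, A_ne hab⟩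

open Classical in
/-- parity of the number of edges reaching the strip below `k` -/
noncomputable def N (L : LD V) (v w : V) (k : ℤ) : ZMod 2 :=
  if (L.h v < k ∧ k ≤ L.h w) ∨ (L.h w < k ∧ k ≤ L.h v) then 1 else 0

lemma IsCh.even (hP : L.IsCh P M) {i : ℕ} (hi : i + 1 ≤ M) (k : ℤ) :
    N L (P i false) (P (i + 1) false) k + N L (P i true) (P (i + 1) false) k +
    N L (P i false) (P (i + 1) true) k + N L (P i true) (P (i + 1) true) k = 0 := by
  have h1 := L.hne (hP.adj i false false hi)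
  have h2 := L.hne (hP.adj i true false hi)
  have h3 := L.hne (hP.adj i false true hi)
  have h4 := L.hne (hP.adj i true true hi)
  have e1 := L.ext (hP.adj i false false hi) (hP.adj i false true hi)
  have e2 := L.ext (hP.adj i true false hi) (hP.adj i true true hi)
  have e3 := L.ext (L.symm (hP.adj i false false hi)) (L.symm (hP.adj i true false hi))
  unfold N
  generalize L.h (P i false) = a at *
  generalize L.h (P i true) = b at *
  generalize L.h (P (i + 1) false) = c at *
  generalize L.h (P (i + 1) true) = d at *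
  by_cases ha : a < k <;> by_cases hb : b < k <;> by_cases hc : c < k <;> by_cases hd : d < k
  all_goals first
    | (exfalso; omega)
    | (rcases lt_or_gt_of_ne h1 with g | g
       · split_ifs <;> first | decide | (exfalso; omega)
       · split_ifs <;> first | decide | (exfalso; omega))

lemma IsCh.right (hP : L.IsCh P M) {i : ℕ} (hi : i + 1 ≤ M) {x : ℝ} {k : ℤ}
    (h : Qs L P i x k = 1) (hx : ∀ a b, ((L.h (P i a) ≤ k ∧ k ≤ L.h (P (i + 1) b)) ∨
      (L.h (P (i + 1) b) ≤ k ∧ k ≤ L.h (P i a))) → L.c (P i a) (P (i + 1) b) k ≠ x) :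
    ∃ a b, ((L.h (P i a) < k ∧ k ≤ L.h (P (i + 1) b)) ∨
      (L.h (P (i + 1) b) < k ∧ k ≤ L.h (P i a))) ∧ x < L.c (P i a) (P (i + 1) b) k := by
  by_contra hc
  push Not at hc
  have h1 : ∀ a b, L.B (P i a) (P (i + 1) b) x k = N L (P i a) (P (i + 1) b) k := by
    intro a b
    unfold B N
    by_cases g : (L.h (P i a) < k ∧ k ≤ L.h (P (i + 1) b)) ∨
      (L.h (P (i + 1) b) < k ∧ k ≤ L.h (P i a))
    · rw [if_pos g, if_pos ⟨g, lt_of_le_of_ne (hc a b g) (hx a b (by omega))⟩]
    · rw [if_neg g, if_neg (fun h => g h.1)]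
  unfold Qs side at h
  rw [h1, h1, h1, h1, hP.even hi k] at h
  exact absurd h (by decide)

end LD
end Pool.Agent.H560Bip
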