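import Mathlib

namespace Pool.Agent.H560Bip

/-- A bipartite DAG: the sources are `Fin a`, the sinks are `Fin b`, and `adj u v` says that there
is an edge directed from the source `u` to the sink `v` (every edge goes from a source to a sink;
no multiple edges). -/
structure BipDAG where
  a : ℕ
  b : ℕ
  adj : Fin a → Fin b → Prop

/-- number of vertices -/
def BipDAG.order (G : BipDAG) : ℕ := G.a + G.b

/-- vertices: sources and sinks -/
abbrev BipDAG.Vert (G : BipDAG) : Type := Fin G.a ⊕ Fin G.b

/-- a grid point as a point of the plane -/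
def toPlane (p : ℤ × ℤ) : ℝ × ℝ := ((p.1 : ℝ), (p.2 : ℝ))

/-- the polygonal chain through a list of grid points -/
def chainSet : List (ℤ × ℤ) → Set (ℝ × ℝ)
  | [] => ∅
  | [p] => {toPlane p}
  | p :: q :: l => segment ℝ (toPlane p) (toPlane q) ∪ chainSet (q :: l)

/-- An upward planar poly-line grid drawing of `G`: vertices are placed at distinct grid points,
the edge from the source `u` to the sink `v` is the polygonal chain from `pos (inl u)` to
`pos (inr v)` through the grid points `bends u v`; along it the `y`-coordinate strictly increases;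
two different edges meet at most in the position of a common endpoint, and an edge contains the
position of no vertex other than its two endpoints. -/
structure Drawing (G : BipDAG) where
  pos : G.Vert → ℤ × ℤ
  pos_inj : Function.Injective pos
  bends : Fin G.a → Fin G.b → List (ℤ × ℤ)
  upward : ∀ u v, G.adj u v →
    (pos (Sum.inl u) :: (bends u v ++ [pos (Sum.inr v)])).IsChain (fun p q => p.2 < q.2)
  planar : ∀ u v u' v', G.adj u v → G.adj u' v' → (u, v) ≠ (u', v') → ∀ z : ℝ × ℝ,
    z ∈ chainSet (pos (Sum.inl u) :: (bends u v ++ [pos (Sum.inr v)])) →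
    z ∈ chainSet (pos (Sum.inl u') :: (bends u' v' ++ [pos (Sum.inr v')])) →
    (u = u' ∧ z = toPlane (pos (Sum.inl u))) ∨ (v = v' ∧ z = toPlane (pos (Sum.inr v)))
  avoid : ∀ u v w, G.adj u v →
    toPlane (pos w) ∈ chainSet (pos (Sum.inl u) :: (bends u v ++ [pos (Sum.inr v)])) →
    w = Sum.inl u ∨ w = Sum.inr v

namespace Drawing

variable {G : BipDAG} (D : Drawing G)

/-- the curve representing the edge from `u` to `v` -/
def curve (u : Fin G.a) (v : Fin G.b) : Set (ℝ × ℝ) :=
  chainSet (D.pos (Sum.inl u) :: (D.bends u v ++ [D.pos (Sum.inr v)]))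

/-- a straight-line drawing is one without bends -/
def Straight : Prop := ∀ u v, G.adj u v → D.bends u v = []

/-- the axis-parallel rectangle `[x₀, x₁] × [y₀, y₁]` contains the drawing -/
def InBox (x₀ x₁ y₀ y₁ : ℝ) : Prop :=
  (∀ w, toPlane (D.pos w) ∈ Set.Icc x₀ x₁ ×ˢ Set.Icc y₀ y₁) ∧
  ∀ u v, G.adj u v → D.curve u v ⊆ Set.Icc x₀ x₁ ×ˢ Set.Icc y₀ y₁

end Drawing

end Pool.Agent.H560Bip
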