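import Pool.Agent.H560Bip.Chain

namespace Pool.Agent.H560Bip
namespace LD

variable {V : Type} {L : LD V} {P : ℕ → Bool → V} {M : ℕ}

lemma IsCh.grow_left (hP : L.IsCh P M) (h0 : ∀ b, Qv L P 0 (P 2 b) = 1) (i : ℕ)
    (hi : i + 3 ≤ M) {x : ℝ} {k : ℤ} (hx : OnQ L P (i + 2) x k) :
    ∃ (a : ℤ) (k' : ℤ), OnQ L P i a k' ∧ (a : ℝ) < x := by
  obtain ⟨a, b, hk, hc⟩ := hP.left (i := i) (by omega) (hP.inside h0 i hi hx)
  obtain ⟨k', hk', a', h1, h2⟩ := L.intL (hP.adj i a b (by omega)) (k := k) (by omega)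
  exact ⟨a', k', ⟨a, b, hk', h1⟩, lt_of_le_of_lt h2 hc⟩

lemma IsCh.grow_right (hP : L.IsCh P M) (h0 : ∀ b, Qv L P 0 (P 2 b) = 1) (i : ℕ)
    (hi : i + 3 ≤ M) {x : ℝ} {k : ℤ} (hx : OnQ L P (i + 2) x k) :
    ∃ (a : ℤ) (k' : ℤ), OnQ L P i a k' ∧ x < (a : ℝ) := by
  obtain ⟨a, b, hk, hc⟩ := hP.right (i := i) (by omega) (hP.inside h0 i hi hx) (by
    intro a b hab
    obtain ⟨a2, b2, hk2, rfl⟩ := hx
    apply L.ne (hP.adj i a b (by omega)) (hP.adj (i + 2) a2 b2 (by omega))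
    · exact hP.ne_of (by omega) (by omega) (Or.inl (by omega))
    · exact hP.ne_of (by omega) (by omega) (Or.inl (by omega))
    · exact hP.ne_of (by omega) (by omega) (Or.inl (by omega))
    · exact hP.ne_of (by omega) (by omega) (Or.inl (by omega))
    · exact hab
    · exact hk2)
  obtain ⟨k', hk', a', h1, h2⟩ := L.intR (hP.adj i a b (by omega)) (k := k) (by omega)
  exact ⟨a', k', ⟨a, b, hk', h1⟩, lt_of_lt_of_le hc h2⟩

lemma IsCh.grow_down (hP : L.IsCh P M) (h0 : ∀ b, Qv L P 0 (P 2 b) = 1) (i : ℕ)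
    (hi : i + 3 ≤ M) {x : ℝ} {k : ℤ} (hx : OnQ L P (i + 2) x k) :
    ∃ (x' : ℝ) (k' : ℤ), OnQ L P i x' k' ∧ k' < k := by
  obtain ⟨a, b, hk, _⟩ := hP.left (i := i) (by omega) (hP.inside h0 i hi hx)
  rcases hk with hk | hk
  · exact ⟨_, L.h (P i a), ⟨a, b, by omega, rfl⟩, hk.1⟩
  · exact ⟨_, L.h (P (i + 1) b), ⟨a, b, by omega, rfl⟩, hk.1⟩

lemma IsCh.grow_up (hP : L.IsCh P M) (h0 : ∀ b, Qv L P 0 (P 2 b) = 1) (i : ℕ)
    (hi : i + 3 ≤ M) {x : ℝ} {k : ℤ} (hx : OnQ L P (i + 2) x k) :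
    ∃ (x' : ℝ) (k' : ℤ), OnQ L P i x' k' ∧ k < k' := by
  obtain ⟨a, b, hk, _⟩ := hP.left' (i := i) (by omega) (hP.inside h0 i hi hx)
  rcases hk with hk | hk
  · exact ⟨_, L.h (P (i + 1) b), ⟨a, b, by omega, rfl⟩, hk.2⟩
  · exact ⟨_, L.h (P i a), ⟨a, b, by omega, rfl⟩, hk.2⟩

lemma IsCh.far_left (hP : L.IsCh P M) (h0 : ∀ b, Qv L P 0 (P 2 b) = 1) (j : ℕ)
    (hj : 2 * j + 1 ≤ M) : ∀ (x : ℤ) (k : ℤ), OnQ L P (2 * j) x k →
    ∃ (a : ℤ) (k' : ℤ), OnQ L P 0 a k' ∧ a ≤ x - j := by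
  induction j with
  | zero => intro x k h; exact ⟨x, k, h, by simp⟩
  | succ j ih =>
    intro x k h
    obtain ⟨a, k', h1, h2⟩ := hP.grow_left h0 (2 * j) (by omega) (x := x) (k := k) h
    obtain ⟨a', k'', h3, h4⟩ := ih (by omega) a k' h1
    have h5 : a < x := by exact_mod_cast h2
    exact ⟨a', k'', h3, by push_cast; omega⟩

lemma IsCh.far_right (hP : L.IsCh P M) (h0 : ∀ b, Qv L P 0 (P 2 b) = 1) (j : ℕ)
    (hj : 2 * j + 1 ≤ M) : ∀ (x : ℤ) (k : ℤ), OnQ L P (2 * j) x k →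
    ∃ (a : ℤ) (k' : ℤ), OnQ L P 0 a k' ∧ x + j ≤ a := by
  induction j with
  | zero => intro x k h; exact ⟨x, k, h, by simp⟩
  | succ j ih =>
    intro x k h
    obtain ⟨a, k', h1, h2⟩ := hP.grow_right h0 (2 * j) (by omega) (x := x) (k := k) h
    obtain ⟨a', k'', h3, h4⟩ := ih (by omega) a k' h1
    have h5 : x < a := by exact_mod_cast h2
    exact ⟨a', k'', h3, by push_cast; omega⟩

lemma IsCh.far_down (hP : L.IsCh P M) (h0 : ∀ b, Qv L P 0 (P 2 b) = 1) (j : ℕ)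
    (hj : 2 * j + 1 ≤ M) : ∀ (x : ℝ) (k : ℤ), OnQ L P (2 * j) x k →
    ∃ (a : ℝ) (k' : ℤ), OnQ L P 0 a k' ∧ k' ≤ k - j := by
  induction j with
  | zero => intro x k h; exact ⟨x, k, h, by simp⟩
  | succ j ih =>
    intro x k h
    obtain ⟨a, k', h1, h2⟩ := hP.grow_down h0 (2 * j) (by omega) (x := x) (k := k) h
    obtain ⟨a', k'', h3, h4⟩ := ih (by omega) a k' h1
    exact ⟨a', k'', h3, by push_cast; omega⟩

lemma IsCh.far_up (hP : L.IsCh P M) (h0 : ∀ b, Qv L P 0 (P 2 b) = 1) (j : ℕ)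
    (hj : 2 * j + 1 ≤ M) : ∀ (x : ℝ) (k : ℤ), OnQ L P (2 * j) x k →
    ∃ (a : ℝ) (k' : ℤ), OnQ L P 0 a k' ∧ k + j ≤ k' := by
  induction j with
  | zero => intro x k h; exact ⟨x, k, h, by simp⟩
  | succ j ih =>
    intro x k h
    obtain ⟨a, k', h1, h2⟩ := hP.grow_up h0 (2 * j) (by omega) (x := x) (k := k) h
    obtain ⟨a', k'', h3, h4⟩ := ih (by omega) a k' h1
    exact ⟨a', k'', h3, by push_cast; omega⟩

/-- `(x, k)` is a point of the drawing at integer height `k` -/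
def On (L : LD V) (x : ℝ) (k : ℤ) : Prop :=
  ∃ v w, L.E v w ∧ ((L.h v ≤ k ∧ k ≤ L.h w) ∨ (L.h w ≤ k ∧ k ≤ L.h v)) ∧ L.c v w k = x

/-- horizontal and vertical extent at least `2 * r` -/
def Big (L : LD V) (r : ℕ) : Prop :=
  (∃ (x x' : ℝ) (k k' : ℤ), On L x k ∧ On L x' k' ∧ x + 2 * r ≤ x') ∧
  (∃ (x x' : ℝ) (k k' : ℤ), On L x k ∧ On L x' k' ∧ k + 2 * r ≤ k')

lemma IsCh.on (hP : L.IsCh P M) {i : ℕ} (hi : i + 1 ≤ M) {x : ℝ} {k : ℤ}
    (h : OnQ L P i x k) : On L x k := by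
  obtain ⟨a, b, h1, h2⟩ := h
  exact ⟨_, _, hP.adj i a b hi, h1, h2⟩

lemma IsCh.big (hP : L.IsCh P M) (h0 : ∀ b, Qv L P 0 (P 2 b) = 1) (r : ℕ)
    (hr : 2 * r + 1 ≤ M) : Big L r := by
  have e := hP.adj (2 * r) false false hr
  obtain ⟨k, hk, a, ha, -⟩ := L.intL e (k := L.h (P (2 * r) false)) (by
    have := L.hne e
    omega)
  have hon : OnQ L P (2 * r) a k := ⟨false, false, hk, ha⟩
  obtain ⟨a1, k1, h1, h1'⟩ := hP.far_left h0 r hr a k hon
  obtain ⟨a2, k2, h2, h2'⟩ := hP.far_right h0 r hr a k hon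
  obtain ⟨a3, k3, h3, h3'⟩ := hP.far_down h0 r hr a k hon
  obtain ⟨a4, k4, h4, h4'⟩ := hP.far_up h0 r hr a k hon
  refine ⟨⟨a1, a2, k1, k2, hP.on (by omega) h1, hP.on (by omega) h2, ?_⟩,
    ⟨a3, a4, k3, k4, hP.on (by omega) h3, hP.on (by omega) h4, by omega⟩⟩
  have h5 : a1 + 2 * r ≤ a2 := by omega
  exact_mod_cast h5

/-- Main theorem at the level of integer heights: a drawing of a chain of `2 m` pairs has width and
height at least `2 r` when `2 r + 1 ≤ m`. -/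
theorem main (P : ℕ → Bool → V) (m r : ℕ) (hm : 2 ≤ m) (hP : L.IsCh P (2 * m - 1))
    (hr : 2 * r + 1 ≤ m) : Big L r := by
  obtain ⟨i, rfl⟩ : ∃ i, m = i + 2 := ⟨m - 2, by omega⟩
  have hs : ∀ a b, Qv L P (i + 1) (P i a) + Qv L P (i + 1) (P (i + 3) b) = 1 :=
    fun a b => hP.sep (by omega) a b
  by_cases hc : Qv L P (i + 1) (P (i + 3) false) = 1
  · -- forward
    have h1 : Qv L P (i + 1) (P i false) = 0 := by
      have := hs false false
      rw [hc] at this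
      generalize Qv L P (i + 1) (P i false) = t at *
      revert t; decide
    have h2 : ∀ b, Qv L P (i + 1) (P (i + 3) b) = 1 := by
      intro b
      have := hs false b
      rw [h1, zero_add] at this
      exact this
    let P' : ℕ → Bool → V := fun j => P (i + 1 + j)
    have hP' : L.IsCh P' (i + 2) := by
      constructor
      · intro j a b hj
        exact hP.adj (i + 1 + j) a b (by omega)
      · intro j j' a b hj hj' h
        obtain ⟨h3, h4⟩ := hP.inj (i + 1 + j) (i + 1 + j') a b (by omega) (by omega) h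
        exact ⟨by omega, h4⟩
    exact hP'.big (by intro b; exact h2 b) r (by omega)
  · have h0 : Qv L P (i + 1) (P (i + 3) false) = 0 := by
      generalize Qv L P (i + 1) (P (i + 3) false) = t at *
      revert t; decide
    have h2 : ∀ a, Qv L P (i + 1) (P i a) = 1 := by
      intro a
      have := hs a false
      rw [h0, add_zero] at this
      exact this
    let P' : ℕ → Bool → V := fun j => P (i + 2 - j)
    have hP' : L.IsCh P' (i + 2) := by
      constructor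
      · intro j a b hj
        have h5 := L.symm (hP.adj (i + 2 - (j + 1)) b a (by omega))
        have h6 : i + 2 - (j + 1) + 1 = i + 2 - j := by omega
        rw [h6] at h5
        exact h5
      · intro j j' a b hj hj' h
        obtain ⟨h3, h4⟩ := hP.inj (i + 2 - j) (i + 2 - j') a b (by omega) (by omega) h
        exact ⟨by omega, h4⟩
    refine hP'.big ?_ r (by omega)
    intro b
    have h5 := h2 b
    unfold Qv at h5 ⊢
    rw [L.sideV_swap] at h5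
    have e0 : P' 0 = P (i + 2) := rfl
    have e1 : P' (0 + 1) = P (i + 1) := by
      show P (i + 2 - 1) = P (i + 1)
      congr 1
    have e2 : P' 2 = P i := by
      show P (i + 2 - 2) = P i
      congr 1
    rw [e0, e1, e2]
    exact h5

end LD
end Pool.Agent.H560Bip
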