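import Pool.Agent.H560Bip.ToLD

namespace Pool.Agent.H560Bip

/-- the graph: sinks and sources are grouped in pairs `T₀, S₀, T₁, S₁, …`, and consecutive pairs
are completely joined -/
def Gr (a b : ℕ) : BipDAG where
  a := a
  b := b
  adj u v := u.1 / 2 = v.1 / 2 ∨ u.1 / 2 + 1 = v.1 / 2

/-- ordinate of the sink `v` -/
def bb (v : ℕ) : ℤ := if v % 2 = 0 then ((v / 2 : ℕ) : ℤ) + 1 else -(((v / 2 : ℕ) : ℤ) + 1)

/-- sign of the abscissa of the source `u` -/
def sg (u : ℕ) : ℤ := if u % 2 = 0 then -1 else 1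

def AA (u : ℕ) : ℤ := ((u / 2 : ℕ) : ℤ) + 1

def ps (a b : ℕ) : (Gr a b).Vert → ℤ × ℤ
  | Sum.inl u => (sg u.1 * AA u.1, -3 * AA u.1)
  | Sum.inr v => (0, bb v.1)

lemma AA_pos (u : ℕ) : 1 ≤ AA u := by unfold AA; omega

lemma sg_cases (u : ℕ) : sg u = 1 ∨ sg u = -1 := by
  unfold sg; split_ifs <;> simp

lemma bb_inj {v w : ℕ} (h : bb v = bb w) : v = w := by
  unfold bb at h
  split_ifs at h <;> omega

lemma src_inj {u w : ℕ} (h : sg u = sg w) (h' : AA u = AA w) : u = w := by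
  unfold sg at h
  unfold AA at h'
  split_ifs at h <;> omega

lemma bb_abs {a b : ℕ} {u : Fin (Gr a b).a} {v : Fin (Gr a b).b} (h : (Gr a b).adj u v) :
    |bb v.1| = AA u.1 ∨ |bb v.1| = AA u.1 + 1 := by
  have h' : u.1 / 2 = v.1 / 2 ∨ u.1 / 2 + 1 = v.1 / 2 := h
  have h1 : |bb v.1| = ((v.1 / 2 : ℕ) : ℤ) + 1 := by
    unfold bb
    split_ifs
    · rw [abs_of_nonneg (by omega)]
    · rw [abs_neg, abs_of_nonneg (by omega)]
  rw [h1]
  unfold AA
  rcases h' with h' | h' <;> omega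

lemma toPlane_inj {p q : ℤ × ℤ} (h : toPlane p = toPlane q) : p = q := by
  unfold toPlane at h
  rw [Prod.mk.injEq] at h
  ext
  · exact_mod_cast h.1
  · exact_mod_cast h.2

lemma ps_inj (a b : ℕ) : Function.Injective (ps a b) := by
  intro x y h
  rcases x with x | x <;> rcases y with y | y
  · unfold ps at h
    rw [Prod.mk.injEq] at h
    have h2 : AA x.1 = AA y.1 := by omega
    have h3 : sg x.1 = sg y.1 := by
      have h4 := h.1
      rw [h2] at h4
      have := AA_pos y.1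
      exact mul_right_cancel₀ (by omega) h4
    rw [Fin.ext (src_inj h3 h2)]
  · unfold ps at h
    rw [Prod.mk.injEq] at h
    exfalso
    have := AA_pos x.1
    rcases sg_cases x.1 with h5 | h5 <;> rw [h5] at h <;> omega
  · unfold ps at h
    rw [Prod.mk.injEq] at h
    exfalso
    have := AA_pos y.1
    rcases sg_cases y.1 with h5 | h5 <;> rw [h5] at h <;> omega
  · unfold ps at h
    rw [Prod.mk.injEq] at h
    rw [Fin.ext (bb_inj h.2)]

lemma cross {σ σ' A A' b b' : ℤ} (hσ : σ = 1 ∨ σ = -1) (hσ' : σ' = 1 ∨ σ' = -1) (hA : 1 ≤ A)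
    (hA' : 1 ≤ A') (hb : |b| = A ∨ |b| = A + 1) (hb' : |b'| = A' ∨ |b'| = A' + 1) {t s : ℝ}
    (t0 : 0 ≤ t) (t1 : t ≤ 1) (s0 : 0 ≤ s) (s1 : s ≤ 1)
    (h1 : (σ : ℝ) * A * (1 - t) = σ' * A' * (1 - s))
    (h2 : -3 * (A : ℝ) * (1 - t) + t * b = -3 * A' * (1 - s) + s * b') :
    (t = 1 ∧ s = 1 ∧ b = b') ∨ (t = 0 ∧ s = 0 ∧ σ = σ' ∧ A = A') ∨
    (σ = σ' ∧ A = A' ∧ b = b') := by
  have A0 : (1 : ℝ) ≤ A := by exact_mod_cast hA
  have A0' : (1 : ℝ) ≤ A' := by exact_mod_cast hA'
  have fin : t = 1 → s = 1 → (t = 1 ∧ s = 1 ∧ b = b') := by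
    intro h3 h4
    refine ⟨h3, h4, ?_⟩
    rw [h3, h4] at h2
    have : (b : ℝ) = b' := by linarith
    exact_mod_cast this
  -- zero products
  have zt : A * (1 - t) = 0 → t = 1 := by
    intro h
    rcases mul_eq_zero.1 h with h | h
    · linarith
    · linarith
  have zs : A' * (1 - s) = 0 → s = 1 := by
    intro h
    rcases mul_eq_zero.1 h with h | h
    · linarith
    · linarith
  have pt : 0 ≤ A * (1 - t) := mul_nonneg (by linarith) (by linarith)
  have pps : 0 ≤ A' * (1 - s) := mul_nonneg (by linarith) (by linarith)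
  by_cases hs : σ = σ'
  · have e1 : (A : ℝ) * (1 - t) = A' * (1 - s) := by
      subst hs
      rcases hσ with h | h <;> subst h <;> push_cast at h1 <;> linarith
    have e2 : t * (b : ℝ) = s * b' := by linarith
    have e3 : t * |(b : ℝ)| = s * |(b' : ℝ)| := by
      have := congrArg abs e2
      rw [abs_mul, abs_mul, abs_of_nonneg t0, abs_of_nonneg s0] at this
      exact this
    have key : ∀ {A A' b b' : ℤ} {t s : ℝ}, 1 ≤ A → A < A' → (|b| = A ∨ |b| = A + 1) →
        (|b'| = A' ∨ |b'| = A' + 1) → 0 ≤ t → t ≤ 1 → 0 ≤ s → s ≤ 1 →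
        (A : ℝ) * (1 - t) = A' * (1 - s) → t * |(b : ℝ)| = s * |(b' : ℝ)| → t = 1 := by
      intro A A' b b' t s hA hlt hb hb' t0 t1 s0 s1 e1 e3
      by_contra hne
      have ht : t < 1 := lt_of_le_of_ne t1 hne
      have a1 : (1 : ℝ) ≤ A := by exact_mod_cast hA
      have a2 : (A : ℝ) + 1 ≤ A' := by exact_mod_cast hlt
      have a3 : t < s := by
        by_contra hc
        push Not at hc
        have : (A : ℝ) * (1 - t) < A' * (1 - s) := by nlinarith
        linarith
      have a4 : |b| ≤ |b'| := by omega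
      have a5 : (|(b : ℝ)|) ≤ |(b' : ℝ)| := by exact_mod_cast a4
      have a6 : 1 ≤ |b'| := by omega
      have a7 : (1 : ℝ) ≤ |(b' : ℝ)| := by exact_mod_cast a6
      nlinarith
    rcases lt_trichotomy A A' with hlt | heq | hgt
    · left
      have ht := key hA hlt hb hb' t0 t1 s0 s1 e1 e3
      apply fin ht
      apply zs
      rw [← e1, ht]; ring
    · right
      subst heq
      have hts : t = s := by
        have : (A : ℝ) * (t - s) = 0 := by linarith
        rcases mul_eq_zero.1 this with h | h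
        · linarith
        · linarith
      by_cases ht : t = 0
      · left; exact ⟨ht, by rw [← hts]; exact ht, hs, rfl⟩
      · right
        refine ⟨hs, rfl, ?_⟩
        rw [← hts] at e2
        have := mul_left_cancel₀ ht e2
        exact_mod_cast this
    · left
      have hs1 := key hA' hgt hb' hb s0 s1 t0 t1 e1.symm e3.symm
      apply fin _ hs1
      apply zt
      rw [e1, hs1]; ring
  · left
    have e1 : (A : ℝ) * (1 - t) = -(A' * (1 - s)) := by
      rcases hσ with h | h <;> rcases hσ' with h' | h' <;> subst h <;> subst h' <;>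
        first | exact absurd rfl hs | (push_cast at h1; linarith)
    exact fin (zt (by linarith)) (zs (by linarith))

lemma seg_param {p q z : ℝ × ℝ} (h : z ∈ segment ℝ p q) : ∃ t : ℝ, 0 ≤ t ∧ t ≤ 1 ∧
    z.1 = p.1 * (1 - t) + t * q.1 ∧ z.2 = p.2 * (1 - t) + t * q.2 := by
  obtain ⟨x, y, hx, hy, hxy, rfl⟩ := h
  refine ⟨y, hy, by linarith, ?_, ?_⟩
  · have : x = 1 - y := by linarith
    subst this
    show (1 - y) * p.1 + y * q.1 = _
    ring
  · have : x = 1 - y := by linarith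
    subst this
    show (1 - y) * p.2 + y * q.2 = _
    ring

lemma chain_pair {p q : ℤ × ℤ} {z : ℝ × ℝ} (h : z ∈ chainSet (p :: ([] ++ [q]))) :
    z ∈ segment ℝ (toPlane p) (toPlane q) := by
  rcases h with h | h
  · exact h
  · have : z = toPlane q := h
    rw [this]
    exact right_mem_segment ℝ _ _

lemma ps_param {a b : ℕ} {u : Fin (Gr a b).a} {v : Fin (Gr a b).b} {z : ℝ × ℝ}
    (h : z ∈ chainSet (ps a b (Sum.inl u) :: ([] ++ [ps a b (Sum.inr v)]))) :
    ∃ t : ℝ, 0 ≤ t ∧ t ≤ 1 ∧ z.1 = (sg u.1 : ℝ) * AA u.1 * (1 - t) ∧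
      z.2 = -3 * (AA u.1 : ℝ) * (1 - t) + t * bb v.1 := by
  obtain ⟨t, h0, h1, h2, h3⟩ := seg_param (chain_pair h)
  refine ⟨t, h0, h1, ?_, ?_⟩
  · rw [h2]
    simp [ps, toPlane]
  · rw [h3]
    simp [ps, toPlane]

/-- the straight-line drawing -/
def dr (a b : ℕ) : Drawing (Gr a b) where
  pos := ps a b
  pos_inj := ps_inj a b
  bends _ _ := []
  upward u v h := by
    rw [List.nil_append, List.isChain_cons_cons]
    refine ⟨?_, List.isChain_singleton _⟩
    show -3 * AA u.1 < bb v.1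
    have h1 := bb_abs h
    have h2 := AA_pos u.1
    have h3 := neg_abs_le (bb v.1)
    omega
  planar u v u' v' h h' hne z hz hz' := by
    obtain ⟨t, t0, t1, t2, t3⟩ := ps_param hz
    obtain ⟨s, s0, s1, s2, s3⟩ := ps_param hz'
    rcases cross (sg_cases u.1) (sg_cases u'.1) (AA_pos _) (AA_pos _) (bb_abs h) (bb_abs h')
      t0 t1 s0 s1 (t2.symm.trans s2) (t3.symm.trans s3) with c | c | c
    · right
      refine ⟨Fin.ext (bb_inj c.2.2), ?_⟩
      rw [c.1] at t2 t3
      ext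
      · rw [t2]; simp [ps, toPlane]
      · rw [t3]; simp [ps, toPlane]
    · left
      refine ⟨Fin.ext (src_inj c.2.2.1 c.2.2.2), ?_⟩
      rw [c.1] at t2 t3
      ext
      · rw [t2]; simp [ps, toPlane]
      · rw [t3]; simp [ps, toPlane]
    · exfalso
      apply hne
      rw [Prod.mk.injEq]
      exact ⟨Fin.ext (src_inj c.1 c.2.1), Fin.ext (bb_inj c.2.2)⟩
  avoid u v w h hw := by
    obtain ⟨t, t0, t1, t2, t3⟩ := ps_param hw
    have hA : (1 : ℝ) ≤ AA u.1 := by exact_mod_cast AA_pos u.1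
    rcases w with w | w
    · left
      -- the source w lies on the edge: t = 0
      have e1 : (sg w.1 : ℝ) * AA w.1 = (sg u.1 : ℝ) * AA u.1 * (1 - t) := by
        rw [← t2]; simp [ps, toPlane]
      have e2 : (-3 : ℝ) * AA w.1 = -3 * (AA u.1 : ℝ) * (1 - t) + t * bb v.1 := by
        rw [← t3]; simp [ps, toPlane]
      have hw1 : (1 : ℝ) ≤ AA w.1 := by exact_mod_cast AA_pos w.1
      rcases cross (t := t) (s := 0) (b' := AA w.1) (sg_cases u.1) (sg_cases w.1) (AA_pos _)
        (AA_pos _) (bb_abs h)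
        (Or.inl (abs_of_nonneg (by have := AA_pos w.1; omega))) t0 t1 (le_refl _) (by norm_num)
        (by rw [← e1]; ring) (by rw [← e2]; ring) with c | c | c
      · exact absurd c.2.1 (by norm_num)
      · rw [Fin.ext (src_inj c.2.2.1 c.2.2.2)]
      · rw [Fin.ext (src_inj c.1 c.2.1)]
    · right
      have e1 : (0 : ℝ) = (sg u.1 : ℝ) * AA u.1 * (1 - t) := by
        rw [← t2]; simp [ps, toPlane]
      have e2 : (bb w.1 : ℝ) = -3 * (AA u.1 : ℝ) * (1 - t) + t * bb v.1 := by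
        rw [← t3]; simp [ps, toPlane]
      have ht : t = 1 := by
        have h3 : (AA u.1 : ℝ) * (1 - t) = 0 := by
          rcases sg_cases u.1 with h4 | h4 <;> rw [h4] at e1 <;> push_cast at e1 <;> linarith
        rcases mul_eq_zero.1 h3 with h4 | h4
        · linarith
        · linarith
      rw [ht] at e2
      have e3 : (bb w.1 : ℝ) = bb v.1 := by rw [e2]; ring
      have e4 : bb w.1 = bb v.1 := by exact_mod_cast e3
      rw [Fin.ext (bb_inj e4)]

/-- the chain of pairs -/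
def ch (a b : ℕ) (ha : 0 < a) (hb : 0 < b) (j : ℕ) (β : Bool) : (Gr a b).Vert :=
  if j % 2 = 0 then
    Sum.inr (if h : 2 * (j / 2) + β.toNat < b then ⟨2 * (j / 2) + β.toNat, h⟩ else ⟨0, hb⟩)
  else
    Sum.inl (if h : 2 * (j / 2) + β.toNat < a then ⟨2 * (j / 2) + β.toNat, h⟩ else ⟨0, ha⟩)

lemma bool_le (β : Bool) : β.toNat ≤ 1 := by cases β <;> simp

lemma ch_even {a b m : ℕ} (ha : 0 < a) (hb : 0 < b) (h2 : 2 * m ≤ b) {j : ℕ}
    (hj : j < 2 * m) (he : j % 2 = 0) (β : Bool) : ∃ h : 2 * (j / 2) + β.toNat < b,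
    ch a b ha hb j β = Sum.inr ⟨2 * (j / 2) + β.toNat, h⟩ := by
  have hβ := bool_le β
  have h : 2 * (j / 2) + β.toNat < b := by omega
  refine ⟨h, ?_⟩
  unfold ch
  rw [if_pos he, dif_pos h]

lemma ch_odd {a b m : ℕ} (ha : 0 < a) (hb : 0 < b) (h2 : 2 * m ≤ a) {j : ℕ}
    (hj : j < 2 * m) (he : j % 2 = 1) (β : Bool) : ∃ h : 2 * (j / 2) + β.toNat < a,
    ch a b ha hb j β = Sum.inl ⟨2 * (j / 2) + β.toNat, h⟩ := by
  have hβ := bool_le β
  have h : 2 * (j / 2) + β.toNat < a := by omega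
  refine ⟨h, ?_⟩
  unfold ch
  rw [if_neg (by omega), dif_pos h]

lemma isCh {a b m : ℕ} (ha : 0 < a) (hb : 0 < b) (h1 : 2 * m ≤ a) (h2 : 2 * m ≤ b)
    (hm : 2 ≤ m) (D : Drawing (Gr a b)) :
    D.toLD.IsCh (ch a b ha hb) (2 * m - 1) := by
  constructor
  · intro j α β hj
    have hα := bool_le α
    have hβ := bool_le β
    rcases Nat.mod_two_eq_zero_or_one j with he | he
    · obtain ⟨k1, e1⟩ := ch_even ha hb h2 (j := j) (by omega) he α
      obtain ⟨k2, e2⟩ := ch_odd ha hb h1 (j := j + 1) (by omega) (by omega) β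
      rw [e1, e2]
      show (Gr a b).adj _ _
      left
      show (2 * ((j + 1) / 2) + β.toNat) / 2 = (2 * (j / 2) + α.toNat) / 2
      omega
    · obtain ⟨k1, e1⟩ := ch_odd ha hb h1 (j := j) (by omega) he α
      obtain ⟨k2, e2⟩ := ch_even ha hb h2 (j := j + 1) (by omega) (by omega) β
      rw [e1, e2]
      show (Gr a b).adj _ _
      right
      show (2 * (j / 2) + α.toNat) / 2 + 1 = (2 * ((j + 1) / 2) + β.toNat) / 2
      omega
  · intro i j α β hi hj h
    have hα := bool_le α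
    have hβ := bool_le β
    have fin : ∀ {i j : ℕ}, i % 2 = j % 2 →
        2 * (i / 2) + α.toNat = 2 * (j / 2) + β.toNat → i = j ∧ α = β := by
      intro i j h3 h4
      have h5 : α.toNat = β.toNat := by omega
      refine ⟨by omega, ?_⟩
      revert h5
      cases α <;> cases β <;> simp
    rcases Nat.mod_two_eq_zero_or_one i with hi' | hi' <;>
      rcases Nat.mod_two_eq_zero_or_one j with hj' | hj'
    · obtain ⟨k1, e1⟩ := ch_even ha hb h2 (j := i) (by omega) hi' α
      obtain ⟨k2, e2⟩ := ch_even ha hb h2 (j := j) (by omega) hj' β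
      rw [e1, e2] at h
      exact fin (by omega) (congrArg Fin.val (Sum.inr_injective h))
    · obtain ⟨k1, e1⟩ := ch_even ha hb h2 (j := i) (by omega) hi' α
      obtain ⟨k2, e2⟩ := ch_odd ha hb h1 (j := j) (by omega) hj' β
      rw [e1, e2] at h
      cases h
    · obtain ⟨k1, e1⟩ := ch_odd ha hb h1 (j := i) (by omega) hi' α
      obtain ⟨k2, e2⟩ := ch_even ha hb h2 (j := j) (by omega) hj' β
      rw [e1, e2] at h
      cases h
    · obtain ⟨k1, e1⟩ := ch_odd ha hb h1 (j := i) (by omega) hi' α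
      obtain ⟨k2, e2⟩ := ch_odd ha hb h1 (j := j) (by omega) hj' β
      rw [e1, e2] at h
      exact fin (by omega) (congrArg Fin.val (Sum.inl_injective h))

/-- every poly-line drawing of the graph on `n` vertices has area at least `(n - 11)² / 16` -/
theorem area_lower (n : ℕ) (hn : 11 ≤ n) (D : Drawing (Gr (n / 2) (n - n / 2)))
    (x₀ x₁ y₀ y₁ : ℝ) (hb : D.InBox x₀ x₁ y₀ y₁) :
    ((n : ℝ) - 11) ^ 2 / 16 ≤ (x₁ - x₀) * (y₁ - y₀) := by
  have hm : 2 ≤ n / 4 := by omega
  have hC := isCh (a := n / 2) (b := n - n / 2) (m := n / 4) (by omega) (by omega) (by omega)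
    (by omega) hm D
  have hbig := LD.main _ (n / 4) ((n / 4 - 1) / 2) hm hC (by omega)
  refine le_trans ?_ (D.area_ge hbig hb)
  have h1 : n ≤ 4 * (2 * ((n / 4 - 1) / 2)) + 11 := by omega
  have h2 : (n : ℝ) ≤ 4 * (2 * (((n / 4 - 1) / 2 : ℕ) : ℝ)) + 11 := by exact_mod_cast h1
  have h3 : (11 : ℝ) ≤ n := by exact_mod_cast hn
  nlinarith

end Pool.Agent.H560Bip
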