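import Pool.Agent.H560Bip.Defs

namespace Pool.Agent.H560Bip

/-- the abscissa of the chain at height `t` -/
noncomputable def g : List (ℤ × ℤ) → ℝ → ℝ
  | [], _ => 0
  | [p], _ => p.1
  | p :: q :: l, t =>
    if t ≤ (q.2 : ℝ) then (p.1 : ℝ) + (t - p.2) * (((q.1 : ℝ) - p.1) / ((q.2 : ℝ) - p.2))
    else g (q :: l) t

/-- strictly increasing height -/
abbrev Up (l : List (ℤ × ℤ)) : Prop := l.IsChain (fun p q => p.2 < q.2)

lemma g_head (p : ℤ × ℤ) (l : List (ℤ × ℤ)) (h : Up (p :: l)) : g (p :: l) p.2 = p.1 := by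
  cases l with
  | nil => rfl
  | cons q l =>
    have h1 := (List.isChain_cons_cons.1 h).1
    have h2 : (p.2 : ℝ) ≤ q.2 := by exact_mod_cast h1.le
    unfold g
    rw [if_pos h2]; ring

lemma g_cont (l : List (ℤ × ℤ)) (h : Up l) : Continuous (g l) := by
  induction l with
  | nil =>
    have : g [] = fun _ => (0 : ℝ) := by funext t; rw [g]
    rw [this]; exact continuous_const
  | cons p l ih =>
    cases l with
    | nil =>
      have : g [p] = fun _ => (p.1 : ℝ) := by funext t; rw [g]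
      rw [this]; exact continuous_const
    | cons q l =>
      obtain ⟨h1, h2⟩ := List.isChain_cons_cons.1 h
      have ih' := ih h2
      have : g (p :: q :: l) = fun t => if t ≤ (q.2 : ℝ) then
          (p.1 : ℝ) + (t - p.2) * (((q.1 : ℝ) - p.1) / ((q.2 : ℝ) - p.2))
          else g (q :: l) t := by
        funext t; rw [g]
      rw [this]
      apply Continuous.if_le
      · fun_prop
      · exact ih'
      · fun_prop
      · fun_prop
      · intro t ht
        rw [ht, g_head q l h2]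
        have h3 : (q.2 : ℝ) - p.2 ≠ 0 := by
          have h4 : (p.2 : ℝ) < q.2 := by exact_mod_cast h1
          intro h0; linarith
        field_simp
        ring

/-- height of the last point -/
def top : ℤ × ℤ → List (ℤ × ℤ) → ℤ
  | p, [] => p.2
  | _, q :: l => top q l

lemma le_top (p : ℤ × ℤ) (l : List (ℤ × ℤ)) (h : Up (p :: l)) : p.2 ≤ top p l := by
  induction l generalizing p with
  | nil => exact le_refl _
  | cons q l ih =>
    obtain ⟨h1, h2⟩ := List.isChain_cons_cons.1 h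
    exact h1.le.trans (ih q h2)

lemma mem_chain (p : ℤ × ℤ) (l : List (ℤ × ℤ)) (h : Up (p :: l)) (t : ℝ)
    (h0 : (p.2 : ℝ) ≤ t) (h1 : t ≤ top p l) : ((g (p :: l) t, t) : ℝ × ℝ) ∈ chainSet (p :: l) := by
  induction l generalizing p with
  | nil =>
    have h2 : t = p.2 := le_antisymm h1 h0
    subst h2
    show _ ∈ ({toPlane p} : Set (ℝ × ℝ))
    rfl
  | cons q l ih =>
    obtain ⟨h2, h3⟩ := List.isChain_cons_cons.1 h
    have h4 : (0 : ℝ) < (q.2 : ℝ) - p.2 := by
      have : (p.2 : ℝ) < q.2 := by exact_mod_cast h2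
      linarith
    rw [chainSet, g]
    by_cases h5 : t ≤ (q.2 : ℝ)
    · left
      rw [if_pos h5]
      refine ⟨1 - (t - p.2) / ((q.2 : ℝ) - p.2), (t - p.2) / ((q.2 : ℝ) - p.2), ?_, ?_, by ring, ?_⟩
      · rw [sub_nonneg, div_le_one h4]; linarith
      · apply div_nonneg <;> linarith
      · ext
        · show (1 - (t - p.2) / ((q.2 : ℝ) - p.2)) * (p.1 : ℝ) +
            (t - p.2) / ((q.2 : ℝ) - p.2) * (q.1 : ℝ) = _
          simp only
          field_simp
          ring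
        · show (1 - (t - p.2) / ((q.2 : ℝ) - p.2)) * (p.2 : ℝ) +
            (t - p.2) / ((q.2 : ℝ) - p.2) * (q.2 : ℝ) = _
          simp only
          field_simp
          ring
    · right
      rw [if_neg h5]
      exact ih q h3 (by linarith [not_le.1 h5]) h1

lemma g_tail (p q : ℤ × ℤ) (l : List (ℤ × ℤ)) (h : Up (p :: q :: l)) (t : ℝ)
    (ht : (q.2 : ℝ) ≤ t) : g (p :: q :: l) t = g (q :: l) t := by
  obtain ⟨h2, h3⟩ := List.isChain_cons_cons.1 h
  have h4 : (0 : ℝ) < (q.2 : ℝ) - p.2 := by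
    have : (p.2 : ℝ) < q.2 := by exact_mod_cast h2
    linarith
  rw [g]
  split_ifs with h5
  · have h6 : t = q.2 := le_antisymm h5 ht
    rw [h6, g_head q l h3]
    field_simp
    ring
  · rfl

lemma g_top (p : ℤ × ℤ) (l : List (ℤ × ℤ)) (h : Up (p :: l)) :
    ∃ r, (p :: l).getLast? = some r ∧ r.2 = top p l ∧ g (p :: l) (top p l) = r.1 := by
  induction l generalizing p with
  | nil => exact ⟨p, rfl, rfl, rfl⟩
  | cons q l ih =>
    obtain ⟨h2, h3⟩ := List.isChain_cons_cons.1 h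
    obtain ⟨r, hr, hr2, hr3⟩ := ih q h3
    refine ⟨r, ?_, hr2, ?_⟩
    · rw [List.getLast?_cons_cons]; exact hr
    · show g (p :: q :: l) (top q l) = r.1
      rw [g_tail p q l h _ (by exact_mod_cast le_top q l h3)]
      exact hr3

/-- every value is at least the abscissa of some node -/
lemma g_ge (p : ℤ × ℤ) (l : List (ℤ × ℤ)) (h : Up (p :: l)) (t : ℝ)
    (h0 : (p.2 : ℝ) ≤ t) (h1 : t ≤ top p l) :
    ∃ (k : ℤ) (a : ℤ), p.2 ≤ k ∧ k ≤ top p l ∧ g (p :: l) k = a ∧ (a : ℝ) ≤ g (p :: l) t := by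
  induction l generalizing p with
  | nil =>
    have h2 : t = p.2 := le_antisymm h1 h0
    exact ⟨p.2, p.1, le_refl _, le_refl _, rfl, le_refl _⟩
  | cons q l ih =>
    obtain ⟨h2, h3⟩ := List.isChain_cons_cons.1 h
    have h2' : (p.2 : ℝ) < q.2 := by exact_mod_cast h2
    have h4 : (0 : ℝ) < (q.2 : ℝ) - p.2 := by linarith
    by_cases h5 : t ≤ (q.2 : ℝ)
    · have h6 : g (p :: q :: l) t =
        (p.1 : ℝ) + (t - p.2) * (((q.1 : ℝ) - p.1) / ((q.2 : ℝ) - p.2)) := by
        rw [g, if_pos h5]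
      have h7 : 0 ≤ (t - p.2) / ((q.2 : ℝ) - p.2) := by apply div_nonneg <;> linarith
      have h8 : (t - p.2) / ((q.2 : ℝ) - p.2) ≤ 1 := by rw [div_le_one h4]; linarith
      have h9 : g (p :: q :: l) t =
        (p.1 : ℝ) + ((t - p.2) / ((q.2 : ℝ) - p.2)) * ((q.1 : ℝ) - p.1) := by
        rw [h6]; ring
      rcases le_total (p.1 : ℝ) (q.1 : ℝ) with hpq | hpq
      · refine ⟨p.2, p.1, le_refl _, h2.le.trans (le_top q l h3), g_head p _ h, ?_⟩
        rw [h9]; nlinarith
      · refine ⟨q.2, q.1, h2.le, le_top q l h3, ?_, ?_⟩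
        · rw [g_tail p q l h _ (le_refl _)]; exact g_head q l h3
        · rw [h9]; nlinarith
    · have h6 := not_le.1 h5
      obtain ⟨k, a, hk1, hk2, hk3, hk4⟩ := ih q h3 h6.le h1
      refine ⟨k, a, h2.le.trans hk1, hk2, ?_, ?_⟩
      · rw [g_tail p q l h _ (by exact_mod_cast hk1)]; exact hk3
      · rw [g_tail p q l h _ h6.le]; exact hk4

/-- every value is at most the abscissa of some node -/
lemma g_le (p : ℤ × ℤ) (l : List (ℤ × ℤ)) (h : Up (p :: l)) (t : ℝ)
    (h0 : (p.2 : ℝ) ≤ t) (h1 : t ≤ top p l) :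
    ∃ (k : ℤ) (a : ℤ), p.2 ≤ k ∧ k ≤ top p l ∧ g (p :: l) k = a ∧ g (p :: l) t ≤ (a : ℝ) := by
  induction l generalizing p with
  | nil =>
    have h2 : t = p.2 := le_antisymm h1 h0
    exact ⟨p.2, p.1, le_refl _, le_refl _, rfl, le_refl _⟩
  | cons q l ih =>
    obtain ⟨h2, h3⟩ := List.isChain_cons_cons.1 h
    have h2' : (p.2 : ℝ) < q.2 := by exact_mod_cast h2
    have h4 : (0 : ℝ) < (q.2 : ℝ) - p.2 := by linarith
    by_cases h5 : t ≤ (q.2 : ℝ)
    · have h6 : g (p :: q :: l) t =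
        (p.1 : ℝ) + (t - p.2) * (((q.1 : ℝ) - p.1) / ((q.2 : ℝ) - p.2)) := by
        rw [g, if_pos h5]
      have h7 : 0 ≤ (t - p.2) / ((q.2 : ℝ) - p.2) := by apply div_nonneg <;> linarith
      have h8 : (t - p.2) / ((q.2 : ℝ) - p.2) ≤ 1 := by rw [div_le_one h4]; linarith
      have h9 : g (p :: q :: l) t =
        (p.1 : ℝ) + ((t - p.2) / ((q.2 : ℝ) - p.2)) * ((q.1 : ℝ) - p.1) := by
        rw [h6]; ring
      rcases le_total (q.1 : ℝ) (p.1 : ℝ) with hpq | hpq
      · refine ⟨p.2, p.1, le_refl _, h2.le.trans (le_top q l h3), g_head p _ h, ?_⟩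
        rw [h9]; nlinarith
      · refine ⟨q.2, q.1, h2.le, le_top q l h3, ?_, ?_⟩
        · rw [g_tail p q l h _ (le_refl _)]; exact g_head q l h3
        · rw [h9]; nlinarith
    · have h6 := not_le.1 h5
      obtain ⟨k, a, hk1, hk2, hk3, hk4⟩ := ih q h3 h6.le h1
      refine ⟨k, a, h2.le.trans hk1, hk2, ?_, ?_⟩
      · rw [g_tail p q l h _ (by exact_mod_cast hk1)]; exact hk3
      · rw [g_tail p q l h _ h6.le]; exact hk4

end Pool.Agent.H560Bip
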