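import Mathlib

namespace Pool.Agent.H560Bip

/-- Abstract data of a planar drawing with strictly monotone edges, recorded at integer heights.
`E` is adjacency, `h` the height and `X` the abscissa of a vertex, `c v w k` the abscissa of the
edge `v w` at the integer height `k`. -/
structure LD (V : Type) where
  E : V → V → Prop
  h : V → ℤ
  X : V → ℝ
  c : V → V → ℤ → ℝ
  symm : ∀ {v w}, E v w → E w v
  csymm : ∀ v w k, c v w k = c w v k
  cself : ∀ {v w}, E v w → c v w (h v) = X v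
  hne : ∀ {v w}, E v w → h v ≠ h w
  ext : ∀ {v w w'}, E v w → E v w' → (h v < h w ↔ h v < h w')
  ne : ∀ {v w v' w' k}, E v w → E v' w' → v ≠ v' → v ≠ w' → w ≠ v' → w ≠ w' →
    ((h v ≤ k ∧ k ≤ h w) ∨ (h w ≤ k ∧ k ≤ h v)) →
    ((h v' ≤ k ∧ k ≤ h w') ∨ (h w' ≤ k ∧ k ≤ h v')) → c v w k ≠ c v' w' k
  nc : ∀ {v w v' w' k}, E v w → E v' w' → v ≠ v' → v ≠ w' → w ≠ v' → w ≠ w' →
    ((h v ≤ k ∧ k + 1 ≤ h w) ∨ (h w ≤ k ∧ k + 1 ≤ h v)) →
    ((h v' ≤ k ∧ k + 1 ≤ h w') ∨ (h w' ≤ k ∧ k + 1 ≤ h v')) →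
    (c v w k < c v' w' k ↔ c v w (k + 1) < c v' w' (k + 1))
  intL : ∀ {v w k}, E v w → ((h v ≤ k ∧ k ≤ h w) ∨ (h w ≤ k ∧ k ≤ h v)) →
    ∃ k', ((h v ≤ k' ∧ k' ≤ h w) ∨ (h w ≤ k' ∧ k' ≤ h v)) ∧ ∃ a : ℤ, c v w k' = a ∧
      (a : ℝ) ≤ c v w k
  intR : ∀ {v w k}, E v w → ((h v ≤ k ∧ k ≤ h w) ∨ (h w ≤ k ∧ k ≤ h v)) →
    ∃ k', ((h v ≤ k' ∧ k' ≤ h w) ∨ (h w ≤ k' ∧ k' ≤ h v)) ∧ ∃ a : ℤ, c v w k' = a ∧
      c v w k ≤ (a : ℝ)

namespace LD

variable {V : Type} (L : LD V)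

/-- upside-down drawing -/
def flip : LD V where
  E := L.E
  h v := - L.h v
  X := L.X
  c v w k := L.c v w (-k)
  symm := L.symm
  csymm v w k := L.csymm v w (-k)
  cself {v w} e := by simpa using L.cself e
  hne {v w} e := by have := L.hne e; omega
  ext {v w w'} e e' := by
    have h1 := L.ext e e'
    have h2 := L.hne e
    have h3 := L.hne e'
    omega
  ne {v w v' w' k} e e' h1 h2 h3 h4 h5 h6 := by
    apply L.ne e e' h1 h2 h3 h4
    · omega
    · omega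
  nc {v w v' w' k} e e' h1 h2 h3 h4 h5 h6 := by
    have h7 := L.nc (k := -k - 1) e e' h1 h2 h3 h4 (by omega) (by omega)
    have h8 : -(k + 1) = -k - 1 := by ring
    have h9 : -k - 1 + 1 = -k := by ring
    rw [h9] at h7
    rw [h8]
    exact h7.symm
  intL {v w k} e hk := by
    obtain ⟨k', hk', a, ha, hb⟩ := L.intL (k := -k) e (by omega)
    exact ⟨-k', by omega, a, by rw [neg_neg]; exact ha, hb⟩
  intR {v w k} e hk := by
    obtain ⟨k', hk', a, ha, hb⟩ := L.intR (k := -k) e (by omega)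
    exact ⟨-k', by omega, a, by rw [neg_neg]; exact ha, hb⟩

open Classical in
/-- the edge `v w` passes strictly left of the point `(x, k)`, in the strip below height `k` -/
noncomputable def B (v w : V) (x : ℝ) (k : ℤ) : ZMod 2 :=
  if ((L.h v < k ∧ k ≤ L.h w) ∨ (L.h w < k ∧ k ≤ L.h v)) ∧ L.c v w k < x then 1 else 0

open Classical in
/-- the edge `v w` passes strictly left of the point `(x, k)`, in the strip above height `k` -/
noncomputable def A (v w : V) (x : ℝ) (k : ℤ) : ZMod 2 :=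
  if ((L.h v ≤ k ∧ k < L.h w) ∨ (L.h w ≤ k ∧ k < L.h v)) ∧ L.c v w k < x then 1 else 0

open Classical in
noncomputable def VV (v : V) (x : ℝ) (k : ℤ) : ZMod 2 :=
  if L.h v = k ∧ L.X v < x then 1 else 0

lemma B_symm (v w : V) (x : ℝ) (k : ℤ) : L.B v w x k = L.B w v x k := by
  unfold B
  rw [L.csymm v w k]
  congr 1
  rw [or_comm]

lemma A_symm (v w : V) (x : ℝ) (k : ℤ) : L.A v w x k = L.A w v x k := by
  unfold A
  rw [L.csymm v w k]
  congr 1
  rw [or_comm]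

lemma B_add_A {v w : V} (e : L.E v w) (x : ℝ) (k : ℤ) :
    L.B v w x k + L.A v w x k = L.VV v x k + L.VV w x k := by
  have hne := L.hne e
  unfold B A VV
  by_cases h1 : L.h v = k
  · have h2 : L.h w ≠ k := by omega
    have h3 : L.c v w k = L.X v := by rw [← h1]; exact L.cself e
    rw [h3]
    by_cases h4 : L.X v < x
    · rcases lt_or_gt_of_ne h2 with h5 | h5
      · rw [if_pos ⟨by omega, h4⟩, if_neg (by intro h; omega), if_pos ⟨h1, h4⟩,
          if_neg (by intro h; omega)]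
      · rw [if_neg (by intro h; omega), if_pos ⟨by omega, h4⟩, if_pos ⟨h1, h4⟩,
          if_neg (by intro h; omega)]
        decide
    · rw [if_neg (fun h => h4 h.2), if_neg (fun h => h4 h.2), if_neg (fun h => h4 h.2),
        if_neg (by intro h; omega)]
  · by_cases h2 : L.h w = k
    · have h3 : L.c v w k = L.X w := by rw [L.csymm, ← h2]; exact L.cself (L.symm e)
      rw [h3]
      by_cases h4 : L.X w < x
      · rcases lt_or_gt_of_ne h1 with h5 | h5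
        · rw [if_pos ⟨by omega, h4⟩, if_neg (by intro h; omega), if_neg (by intro h; omega),
            if_pos ⟨h2, h4⟩]
          decide
        · rw [if_neg (by intro h; omega), if_pos ⟨by omega, h4⟩, if_neg (by intro h; omega),
            if_pos ⟨h2, h4⟩]
      · rw [if_neg (fun h => h4 h.2), if_neg (fun h => h4 h.2), if_neg (by intro h; omega),
          if_neg (fun h => h4 h.2)]
    · rw [if_neg (c := L.h v = k ∧ L.X v < x) (fun h => h1 h.1),
        if_neg (c := L.h w = k ∧ L.X w < x) (fun h => h2 h.1)]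
      by_cases h4 : ((L.h v < k ∧ k ≤ L.h w) ∨ (L.h w < k ∧ k ≤ L.h v)) ∧ L.c v w k < x
      · rw [if_pos h4, if_pos ⟨by omega, h4.2⟩]
        decide
      · rw [if_neg h4, if_neg (by
          intro h5
          exact h4 ⟨by omega, h5.2⟩)]

/-- parity of the number of edges of the 4-cycle `p q p' q'` passing left of `(x, k)` -/
noncomputable def side (p p' q q' : V) (x : ℝ) (k : ℤ) : ZMod 2 :=
  L.B p q x k + L.B p' q x k + L.B p q' x k + L.B p' q' x k

noncomputable def sideA (p p' q q' : V) (x : ℝ) (k : ℤ) : ZMod 2 :=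
  L.A p q x k + L.A p' q x k + L.A p q' x k + L.A p' q' x k

lemma side_eq_sideA {p p' q q' : V} (e1 : L.E p q) (e2 : L.E p' q) (e3 : L.E p q')
    (e4 : L.E p' q') (x : ℝ) (k : ℤ) : L.side p p' q q' x k = L.sideA p p' q q' x k := by
  have h1 := L.B_add_A e1 x k
  have h2 := L.B_add_A e2 x k
  have h3 := L.B_add_A e3 x k
  have h4 := L.B_add_A e4 x k
  unfold side sideA
  generalize L.B p q x k = b1 at *
  generalize L.B p' q x k = b2 at *
  generalize L.B p q' x k = b3 at *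
  generalize L.B p' q' x k = b4 at *
  generalize L.A p q x k = a1 at *
  generalize L.A p' q x k = a2 at *
  generalize L.A p q' x k = a3 at *
  generalize L.A p' q' x k = a4 at *
  generalize L.VV p x k = v1 at *
  generalize L.VV p' x k = v2 at *
  generalize L.VV q x k = v3 at *
  generalize L.VV q' x k = v4 at *
  have two : (2 : ZMod 2) = 0 := by decide
  have h5 : b1 + b2 + b3 + b4 = (a1 + a2 + a3 + a4) + 2 * (v1 + v2 + v3 + v4
      - (a1 + a2 + a3 + a4)) := by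
    linear_combination h1 + h2 + h3 + h4
  rw [h5, two]; ring

noncomputable def sideV (p p' q q' v : V) : ZMod 2 := L.side p p' q q' (L.X v) (L.h v)

lemma flip_side {p p' q q' : V} (e1 : L.E p q) (e2 : L.E p' q) (e3 : L.E p q')
    (e4 : L.E p' q') (v : V) : L.flip.sideV p p' q q' v = L.sideV p p' q q' v := by
  unfold sideV
  rw [L.side_eq_sideA e1 e2 e3 e4]
  unfold side sideA B A flip
  simp only [neg_neg, neg_lt_neg_iff, neg_le_neg_iff]
  congr 1 <;> [congr 1 <;> [congr 1; skip]; skip] <;>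
  · congr 1
    apply propext
    constructor
    · rintro ⟨h1, h2⟩
      exact ⟨by tauto, h2⟩
    · rintro ⟨h1, h2⟩
      exact ⟨by tauto, h2⟩

lemma strip_eq {v w z y : V} (e : L.E v w) (f : L.E z y) (h1 : v ≠ z) (h2 : v ≠ y) (h3 : w ≠ z)
    (h4 : w ≠ y) {k : ℤ} (hk : (L.h z ≤ k ∧ k + 1 ≤ L.h y) ∨ (L.h y ≤ k ∧ k + 1 ≤ L.h z)) :
    L.A v w (L.c z y k) k = L.B v w (L.c z y (k + 1)) (k + 1) := by
  unfold A B
  by_cases h5 : (L.h v ≤ k ∧ k + 1 ≤ L.h w) ∨ (L.h w ≤ k ∧ k + 1 ≤ L.h v)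
  · have h6 := L.nc e f h1 h2 h3 h4 h5 hk
    by_cases h7 : L.c v w k < L.c z y k
    · rw [if_pos ⟨by omega, h7⟩, if_pos ⟨by omega, h6.1 h7⟩]
    · rw [if_neg (fun h => h7 h.2), if_neg (fun h => h7 (h6.2 h.2))]
  · rw [if_neg (by intro h; omega), if_neg (by intro h; omega)]

lemma side_step {p p' q q' z y : V} (e1 : L.E p q) (e2 : L.E p' q) (e3 : L.E p q')
    (e4 : L.E p' q') (f : L.E z y) (z1 : z ≠ p) (z2 : z ≠ p') (z3 : z ≠ q) (z4 : z ≠ q')
    (y1 : y ≠ p) (y2 : y ≠ p') (y3 : y ≠ q) (y4 : y ≠ q') {k : ℤ}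
    (hk : (L.h z ≤ k ∧ k + 1 ≤ L.h y) ∨ (L.h y ≤ k ∧ k + 1 ≤ L.h z)) :
    L.side p p' q q' (L.c z y k) k = L.side p p' q q' (L.c z y (k + 1)) (k + 1) := by
  rw [L.side_eq_sideA e1 e2 e3 e4]
  unfold sideA side
  rw [L.strip_eq e1 f z1.symm y1.symm z3.symm y3.symm hk,
    L.strip_eq e2 f z2.symm y2.symm z3.symm y3.symm hk,
    L.strip_eq e3 f z1.symm y1.symm z4.symm y4.symm hk,
    L.strip_eq e4 f z2.symm y2.symm z4.symm y4.symm hk]

lemma side_const' {p p' q q' z y : V} (e1 : L.E p q) (e2 : L.E p' q) (e3 : L.E p q')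
    (e4 : L.E p' q') (f : L.E z y) (z1 : z ≠ p) (z2 : z ≠ p') (z3 : z ≠ q) (z4 : z ≠ q')
    (y1 : y ≠ p) (y2 : y ≠ p') (y3 : y ≠ q) (y4 : y ≠ q') {k k' : ℤ} (hkk : k ≤ k')
    (hk : (L.h z ≤ k ∧ k' ≤ L.h y) ∨ (L.h y ≤ k ∧ k' ≤ L.h z)) :
    L.side p p' q q' (L.c z y k) k = L.side p p' q q' (L.c z y k') k' := by
  induction k', hkk using Int.le_induction with
  | base => rfl
  | succ m hm ih =>
    rw [ih (by omega)]
    exact L.side_step e1 e2 e3 e4 f z1 z2 z3 z4 y1 y2 y3 y4 (by omega)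

lemma side_const {p p' q q' z y : V} (e1 : L.E p q) (e2 : L.E p' q) (e3 : L.E p q')
    (e4 : L.E p' q') (f : L.E z y) (z1 : z ≠ p) (z2 : z ≠ p') (z3 : z ≠ q) (z4 : z ≠ q')
    (y1 : y ≠ p) (y2 : y ≠ p') (y3 : y ≠ q) (y4 : y ≠ q') {k : ℤ}
    (hk : (L.h z ≤ k ∧ k ≤ L.h y) ∨ (L.h y ≤ k ∧ k ≤ L.h z)) :
    L.side p p' q q' (L.c z y k) k = L.sideV p p' q q' z := by
  unfold sideV
  have h0 := L.cself f
  rw [← h0]
  rcases hk with hk | hk
  · exact (L.side_const' e1 e2 e3 e4 f z1 z2 z3 z4 y1 y2 y3 y4 hk.1 (by omega)).symm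
  · exact (L.side_const' e1 e2 e3 e4 f z1 z2 z3 z4 y1 y2 y3 y4 hk.2 (by omega))

lemma sideV_edge {p p' q q' z y : V} (e1 : L.E p q) (e2 : L.E p' q) (e3 : L.E p q')
    (e4 : L.E p' q') (f : L.E z y) (z1 : z ≠ p) (z2 : z ≠ p') (z3 : z ≠ q) (z4 : z ≠ q')
    (y1 : y ≠ p) (y2 : y ≠ p') (y3 : y ≠ q) (y4 : y ≠ q') :
    L.sideV p p' q q' z = L.sideV p p' q q' y := by
  have h1 := L.side_const e1 e2 e3 e4 f z1 z2 z3 z4 y1 y2 y3 y4 (k := L.h y) (by
    rcases le_total (L.h z) (L.h y) with h | h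
    · left; exact ⟨h, le_refl _⟩
    · right; exact ⟨le_refl _, h⟩)
  rw [← h1]
  unfold sideV
  rw [L.csymm z y, L.cself (L.symm f)]

/-- order of two disjoint edges is constant -/
lemma ncr {v w v' w' : V} (e : L.E v w) (e' : L.E v' w') (h1 : v ≠ v') (h2 : v ≠ w')
    (h3 : w ≠ v') (h4 : w ≠ w') {k k' : ℤ} (hkk : k ≤ k')
    (h5 : (L.h v ≤ k ∧ k' ≤ L.h w) ∨ (L.h w ≤ k ∧ k' ≤ L.h v))
    (h6 : (L.h v' ≤ k ∧ k' ≤ L.h w') ∨ (L.h w' ≤ k ∧ k' ≤ L.h v')) :
    (L.c v w k < L.c v' w' k ↔ L.c v w k' < L.c v' w' k') := by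
  induction k', hkk using Int.le_induction with
  | base => exact Iff.rfl
  | succ m hm ih =>
    rw [ih (by omega) (by omega)]
    exact L.nc e e' h1 h2 h3 h4 (by omega) (by omega)

end LD

end Pool.Agent.H560Bip
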