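import Pool.Agent.H560Bip.Level

namespace Pool.Agent.H560Bip
namespace LD

variable {V : Type} (L : LD V)

/-- parity of the number of edges of the path `p w p'` passing left of the vertex `v` -/
noncomputable def D (p p' w v : V) : ZMod 2 :=
  L.B p w (L.X v) (L.h v) + L.B p' w (L.X v) (L.h v)

lemma sideV_eq (p p' q q' v : V) : L.sideV p p' q q' v = L.D p p' q v + L.D p p' q' v := by
  unfold sideV side D; ring

lemma D_low {p p' w v : V} (e : L.E p w) (e' : L.E p' w) (h1 : L.h p < L.h w)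
    (h2 : L.h p' < L.h w) (hv : L.h w ≤ L.h v) : L.D p p' w v = 0 := by
  unfold D B
  rcases lt_or_eq_of_le hv with h3 | h3
  · rw [if_neg (by intro h; omega), if_neg (by intro h; omega)]; rfl
  · have h4 : L.c p w (L.h v) = L.X w := by
      rw [← h3, L.csymm]; exact L.cself (L.symm e)
    have h5 : L.c p' w (L.h v) = L.X w := by
      rw [← h3, L.csymm]; exact L.cself (L.symm e')
    rw [h4, h5]
    by_cases h6 : L.X w < L.X v
    · rw [if_pos ⟨by omega, h6⟩, if_pos ⟨by omega, h6⟩]; decide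
    · rw [if_neg (fun h => h6 h.2), if_neg (fun h => h6 h.2)]; rfl

open Classical in
noncomputable def gam (p p' w : V) : ZMod 2 :=
  if L.c p' w (L.h p) < L.X p then 1 else 0

lemma D_high {p p' w v : V} (ew : L.E p w) (ew' : L.E p' w) (ev : L.E p v) (ev' : L.E p' v)
    (hpp : p ≠ p') (hwv : w ≠ v) (h0 : L.h p' ≤ L.h p) (h1 : L.h p < L.h w)
    (h2 : L.h p < L.h v) (hv : L.h v ≤ L.h w) :
    L.D p p' w v = 1 + L.gam p p' w + L.gam p p' v := by
  have n1 : p ≠ w := by rintro rfl; omega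
  have n2 : p ≠ v := by rintro rfl; omega
  have n3 : p' ≠ w := by rintro rfl; omega
  have n4 : p' ≠ v := by rintro rfl; omega
  -- edge p' w against edge p v
  have k1 := L.ncr (k := L.h p) (k' := L.h v) ew' ev hpp.symm n4 n1.symm hwv (by omega)
    (by omega) (by omega)
  rw [L.cself ev, L.csymm p v, L.cself (L.symm ev)] at k1
  -- edge p w against edge p' v
  have k2 := L.ncr (k := L.h p) (k' := L.h v) ew ev' hpp n2 n3.symm hwv (by omega)
    (by omega) (by omega)
  rw [L.cself ew, L.csymm p' v (L.h v), L.cself (L.symm ev')] at k2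
  have k3 : L.c p w (L.h p) ≠ L.c p' v (L.h p) :=
    L.ne ew ev' hpp n2 n3.symm hwv (by omega) (by omega)
  rw [L.cself ew] at k3
  unfold D B gam
  by_cases g1 : L.c p' w (L.h p) < L.X p
  · rw [if_pos g1]
    rw [if_pos (c := ((L.h p' < L.h v ∧ L.h v ≤ L.h w) ∨ (L.h w < L.h v ∧ L.h v ≤ L.h p')) ∧
      L.c p' w (L.h v) < L.X v) ⟨by omega, k1.1 g1⟩]
    by_cases g2 : L.c p' v (L.h p) < L.X p
    · rw [if_pos g2, if_neg (by
        rintro ⟨_, h⟩
        exact absurd (k2.2 h) (not_lt.2 g2.le))]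
      decide
    · rw [if_neg g2, if_pos ⟨by omega, k2.1 (lt_of_le_of_ne (not_lt.1 g2) k3)⟩]
      decide
  · rw [if_neg g1]
    rw [if_neg (c := ((L.h p' < L.h v ∧ L.h v ≤ L.h w) ∨ (L.h w < L.h v ∧ L.h v ≤ L.h p')) ∧
      L.c p' w (L.h v) < L.X v) (fun h => g1 (k1.2 h.2))]
    by_cases g2 : L.c p' v (L.h p) < L.X p
    · rw [if_pos g2, if_neg (by
        rintro ⟨_, h⟩
        exact absurd (k2.2 h) (not_lt.2 g2.le))]
      decide
    · rw [if_neg g2, if_pos ⟨by omega, k2.1 (lt_of_le_of_ne (not_lt.1 g2) k3)⟩]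
      decide

lemma D_pair {p p' w v : V} (ew : L.E p w) (ew' : L.E p' w) (ev : L.E p v) (ev' : L.E p' v)
    (hpp : p ≠ p') (hwv : w ≠ v) (h0 : L.h p' ≤ L.h p) (h1 : L.h p < L.h w)
    (h2 : L.h p < L.h v) :
    L.D p p' w v + L.D p p' v w = 1 + L.gam p p' w + L.gam p p' v := by
  rcases le_total (L.h v) (L.h w) with h | h
  · rw [L.D_high ew ew' ev ev' hpp hwv h0 h1 h2 h, L.D_low ev ev' h2 (by omega) h, add_zero]
  · rw [L.D_high ev ev' ew ew' hpp hwv.symm h0 h2 h1 h, L.D_low ew ew' h1 (by omega) h]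
    ring

lemma D_comm (p p' w v : V) : L.D p p' w v = L.D p' p w v := by
  unfold D; ring

/-- exactly one of the three vertices of a `K_{2,3}` is inside the cycle through the other two -/
def Theta (p p' w1 w2 w3 : V) : Prop :=
  L.sideV p p' w2 w3 w1 + L.sideV p p' w1 w3 w2 + L.sideV p p' w1 w2 w3 = 1 ∧
  (L.sideV p p' w2 w3 w1 = 0 ∨ L.sideV p p' w1 w3 w2 = 0 ∨ L.sideV p p' w1 w2 w3 = 0)

lemma theta_aux {p p' w1 w2 w3 : V} (e1 : L.E p w1) (e1' : L.E p' w1) (e2 : L.E p w2)
    (e2' : L.E p' w2) (e3 : L.E p w3) (e3' : L.E p' w3) (hpp : p ≠ p') (h12 : w1 ≠ w2)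
    (h13 : w1 ≠ w3) (h23 : w2 ≠ w3) (h0 : L.h p' ≤ L.h p) (h1 : L.h p < L.h w1)
    (h2 : L.h p < L.h w2) (h3 : L.h p < L.h w3) : L.Theta p p' w1 w2 w3 := by
  have a12 := L.D_pair e1 e1' e2 e2' hpp h12 h0 h1 h2
  have a13 := L.D_pair e1 e1' e3 e3' hpp h13 h0 h1 h3
  have a23 := L.D_pair e2 e2' e3 e3' hpp h23 h0 h2 h3
  unfold Theta
  rw [L.sideV_eq, L.sideV_eq, L.sideV_eq]
  constructor
  · generalize L.D p p' w1 w2 = d12 at *
    generalize L.D p p' w2 w1 = d21 at *
    generalize L.D p p' w1 w3 = d13 at *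
    generalize L.D p p' w3 w1 = d31 at *
    generalize L.D p p' w2 w3 = d23 at *
    generalize L.D p p' w3 w2 = d32 at *
    generalize L.gam p p' w1 = g1 at *
    generalize L.gam p p' w2 = g2 at *
    generalize L.gam p p' w3 = g3 at *
    have two : (2 : ZMod 2) = 0 := by decide
    linear_combination a12 + a13 + a23 + (1 + g1 + g2 + g3) * two
  · rcases le_total (L.h w1) (L.h w2) with k12 | k12
    · rcases le_total (L.h w2) (L.h w3) with k23 | k23
      · right; right
        rw [L.D_low e1 e1' h1 (by omega) (by omega), L.D_low e2 e2' h2 (by omega) (by omega)]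
        rfl
      · right; left
        rw [L.D_low e1 e1' h1 (by omega) (by omega), L.D_low e3 e3' h3 (by omega) (by omega)]
        rfl
    · rcases le_total (L.h w1) (L.h w3) with k13 | k13
      · right; right
        rw [L.D_low e1 e1' h1 (by omega) (by omega), L.D_low e2 e2' h2 (by omega) (by omega)]
        rfl
      · left
        rw [L.D_low e2 e2' h2 (by omega) (by omega), L.D_low e3 e3' h3 (by omega) (by omega)]
        rfl

lemma sideV_comm (p p' q q' v : V) : L.sideV p p' q q' v = L.sideV p' p q q' v := by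
  unfold sideV side; ring

lemma sideV_comm' (p p' q q' v : V) : L.sideV p p' q q' v = L.sideV p p' q' q v := by
  unfold sideV side; ring

lemma sideV_swap (p p' q q' v : V) : L.sideV p p' q q' v = L.sideV q q' p p' v := by
  unfold sideV side
  rw [L.B_symm p q, L.B_symm p' q, L.B_symm p q', L.B_symm p' q']; ring

lemma theta_up {p p' w1 w2 w3 : V} (e1 : L.E p w1) (e1' : L.E p' w1) (e2 : L.E p w2)
    (e2' : L.E p' w2) (e3 : L.E p w3) (e3' : L.E p' w3) (hpp : p ≠ p') (h12 : w1 ≠ w2)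
    (h13 : w1 ≠ w3) (h23 : w2 ≠ w3) (h1 : L.h p < L.h w1) : L.Theta p p' w1 w2 w3 := by
  have k2 := (L.ext e1 e2).1 h1
  have k3 := (L.ext e1 e3).1 h1
  have k1' : L.h p' < L.h w1 := by
    have a := L.ext (L.symm e1) (L.symm e1')
    have b := L.hne e1'
    omega
  have k2' := (L.ext e1' e2').1 k1'
  have k3' := (L.ext e1' e3').1 k1'
  rcases le_total (L.h p') (L.h p) with h0 | h0
  · exact L.theta_aux e1 e1' e2 e2' e3 e3' hpp h12 h13 h23 h0 h1 k2 k3
  · have := L.theta_aux e1' e1 e2' e2 e3' e3 hpp.symm h12 h13 h23 h0 k1' k2' k3'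
    unfold Theta at this ⊢
    rw [L.sideV_comm p p', L.sideV_comm p p', L.sideV_comm p p']
    exact this

lemma theta {p p' w1 w2 w3 : V} (e1 : L.E p w1) (e1' : L.E p' w1) (e2 : L.E p w2)
    (e2' : L.E p' w2) (e3 : L.E p w3) (e3' : L.E p' w3) (hpp : p ≠ p') (h12 : w1 ≠ w2)
    (h13 : w1 ≠ w3) (h23 : w2 ≠ w3) : L.Theta p p' w1 w2 w3 := by
  rcases lt_or_gt_of_ne (L.hne e1) with h1 | h1
  · exact L.theta_up e1 e1' e2 e2' e3 e3' hpp h12 h13 h23 h1
  · have := L.flip.theta_up (p := p) (p' := p') (w1 := w1) (w2 := w2) (w3 := w3)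
      e1 e1' e2 e2' e3 e3' hpp h12 h13 h23 (by
        show - L.h p < - L.h w1
        omega)
    unfold Theta at this ⊢
    rw [L.flip_side e2 e2' e3 e3', L.flip_side e1 e1' e3 e3', L.flip_side e1 e1' e2 e2'] at this
    exact this

/-- The two sides of a 4-cycle: a common neighbour of `p, p'` and a common neighbour of `q, q'`
lie on different sides of the cycle `p q p' q'`. -/
lemma sep {p p' q q' w z : V} (e1 : L.E p q) (e2 : L.E p' q) (e3 : L.E p q')
    (e4 : L.E p' q') (w1 : L.E p w) (w2 : L.E p' w) (z1 : L.E z q) (z2 : L.E z q')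
    (hpp : p ≠ p') (hqq : q ≠ q') (hwq : w ≠ q) (hwq' : w ≠ q') (hzp : z ≠ p) (hzp' : z ≠ p')
    (hzw : z ≠ w) : L.sideV p p' q q' w + L.sideV p p' q q' z = 1 := by
  have nzq : z ≠ q := by rintro rfl; exact L.hne z1 rfl
  have nzq' : z ≠ q' := by rintro rfl; exact L.hne z2 rfl
  have npq : p ≠ q := by rintro rfl; exact L.hne e1 rfl
  have np'q : p' ≠ q := by rintro rfl; exact L.hne e2 rfl
  have npq' : p ≠ q' := by rintro rfl; exact L.hne e3 rfl
  have np'q' : p' ≠ q' := by rintro rfl; exact L.hne e4 rfl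
  have th := (L.theta e1 e2 e3 e4 w1 w2 hpp hqq hwq.symm hwq'.symm).1
  -- z against (p,p',q,w) and (p,p',q',w)
  have s1 : L.sideV p p' q w z = L.sideV p p' q w q' :=
    L.sideV_edge e1 e2 w1 w2 z2 hzp hzp' nzq hzw npq'.symm np'q'.symm hqq.symm hwq'.symm
  have s2 : L.sideV p p' q' w z = L.sideV p p' q' w q :=
    L.sideV_edge e3 e4 w1 w2 z1 hzp hzp' nzq' hzw npq.symm np'q.symm hqq hwq.symm
  rw [L.sideV_eq] at s1 s2
  rw [L.sideV_eq p p' q q' z]
  rw [← s1, ← s2] at th
  generalize L.D p p' q z = a at *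
  generalize L.D p p' q' z = b at *
  generalize L.D p p' w z = c at *
  generalize L.sideV p p' q q' w = d at *
  have two : (2 : ZMod 2) = 0 := by decide
  linear_combination th - c * two

lemma prop {p p' q q' z z' : V} (e1 : L.E q p) (e2 : L.E q' p) (e3 : L.E q p')
    (e4 : L.E q' p') (z1 : L.E q z) (z2 : L.E q' z) (z1' : L.E q z') (z2' : L.E q' z')
    (hpp : p ≠ p') (hqq : q ≠ q') (hpz : p ≠ z) (hpz' : p ≠ z') (hp'z : p' ≠ z)
    (hp'z' : p' ≠ z')
    (s : L.sideV q q' p p' z = 1) (s' : L.sideV q q' p p' z' = 1) :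
    L.sideV q q' z z' p = 0 := by
  have t1 := L.theta e1 e2 e3 e4 z1 z2 hqq hpp hpz hp'z
  have t2 := L.theta e1 e2 e3 e4 z1' z2' hqq hpp hpz' hp'z'
  unfold Theta at t1 t2
  rw [s] at t1
  rw [s'] at t2
  have k1 : L.sideV q q' p' z p = 0 := by
    generalize L.sideV q q' p' z p = a at *
    generalize L.sideV q q' p z p' = b at *
    revert a b; decide
  have k2 : L.sideV q q' p' z' p = 0 := by
    generalize L.sideV q q' p' z' p = a at *
    generalize L.sideV q q' p z' p' = b at *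
    revert a b; decide
  rw [L.sideV_eq] at k1 k2 ⊢
  generalize L.D q q' p' p = a at *
  generalize L.D q q' z p = b at *
  generalize L.D q q' z' p = c at *
  revert a b c; decide

end LD
end Pool.Agent.H560Bip
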