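import Pool.Agent.H560Bip.Interp
import Pool.Agent.H560Bip.Extent

namespace Pool.Agent.H560Bip

lemma top_append (p q : ℤ × ℤ) (l : List (ℤ × ℤ)) : top p (l ++ [q]) = q.2 := by
  induction l generalizing p with
  | nil => rfl
  | cons r l ih => exact ih r

lemma lt_top' (p : ℤ × ℤ) (l : List (ℤ × ℤ)) (h : Up (p :: l)) (hl : l ≠ []) :
    p.2 < top p l := by
  cases l with
  | nil => exact absurd rfl hl
  | cons q l =>
    obtain ⟨h1, h2⟩ := List.isChain_cons_cons.1 h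
    exact lt_of_lt_of_le h1 (le_top q l h2)

lemma g_last (p q : ℤ × ℤ) (l : List (ℤ × ℤ)) (h : Up (p :: (l ++ [q]))) :
    g (p :: (l ++ [q])) q.2 = q.1 := by
  obtain ⟨r, h1, h2, h3⟩ := g_top p (l ++ [q]) h
  have h4 : (p :: (l ++ [q])).getLast? = some q := by
    rw [← List.cons_append, List.getLast?_append]
    simp
  rw [h4] at h1
  rw [top_append] at h3
  rw [h3, Option.some_injective _ h1]

namespace Drawing

variable {G : BipDAG} (D : Drawing G)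

/-- the list of nodes of the edge `u v` -/
def route (u : Fin G.a) (v : Fin G.b) : List (ℤ × ℤ) :=
  D.pos (Sum.inl u) :: (D.bends u v ++ [D.pos (Sum.inr v)])

def ht (w : G.Vert) : ℤ := (D.pos w).2

noncomputable def xx (w : G.Vert) : ℝ := ((D.pos w).1 : ℝ)

variable {u u' : Fin G.a} {v v' : Fin G.b}

lemma up (e : G.adj u v) : Up (D.route u v) := D.upward u v e

lemma ht_lt (e : G.adj u v) : D.ht (Sum.inl u) < D.ht (Sum.inr v) := by
  have := lt_top' _ _ (D.up e) (by simp)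
  rw [top_append] at this
  exact this

lemma g_bot (e : G.adj u v) : g (D.route u v) (D.ht (Sum.inl u)) = D.xx (Sum.inl u) :=
  g_head _ _ (D.up e)

lemma g_top (e : G.adj u v) : g (D.route u v) (D.ht (Sum.inr v)) = D.xx (Sum.inr v) :=
  g_last _ _ _ (D.up e)

lemma mem_curve (e : G.adj u v) {t : ℝ} (h0 : (D.ht (Sum.inl u) : ℝ) ≤ t)
    (h1 : t ≤ D.ht (Sum.inr v)) : ((g (D.route u v) t, t) : ℝ × ℝ) ∈ D.curve u v := by
  apply mem_chain _ _ (D.up e) t h0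
  rw [top_append]
  exact h1

lemma key_ne (e : G.adj u v) (e' : G.adj u' v') (hu : u ≠ u') (hv : v ≠ v') {t : ℝ}
    (h0 : (D.ht (Sum.inl u) : ℝ) ≤ t) (h1 : t ≤ D.ht (Sum.inr v))
    (h0' : (D.ht (Sum.inl u') : ℝ) ≤ t) (h1' : t ≤ D.ht (Sum.inr v')) :
    g (D.route u v) t ≠ g (D.route u' v') t := by
  intro h
  have m1 := D.mem_curve e h0 h1
  have m2 := D.mem_curve e' h0' h1'
  rw [← h] at m2
  rcases D.planar u v u' v' e e' (by simp [hu]) _ m1 m2 with h2 | h2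
  · exact hu h2.1
  · exact hv h2.1

lemma key_nc (e : G.adj u v) (e' : G.adj u' v') (hu : u ≠ u') (hv : v ≠ v') {t s : ℝ}
    (hts : t ≤ s)
    (h0 : (D.ht (Sum.inl u) : ℝ) ≤ t) (h1 : s ≤ D.ht (Sum.inr v))
    (h0' : (D.ht (Sum.inl u') : ℝ) ≤ t) (h1' : s ≤ D.ht (Sum.inr v'))
    (h : g (D.route u v) t < g (D.route u' v') t) :
    g (D.route u v) s < g (D.route u' v') s := by
  by_contra hc
  push Not at hc
  have hcont : ContinuousOn (fun r => g (D.route u' v') r - g (D.route u v) r) (Set.Icc t s) :=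
    ((g_cont _ (D.up e')).sub (g_cont _ (D.up e))).continuousOn
  have := intermediate_value_Icc' hts hcont
  obtain ⟨r, hr, hr0⟩ := this (show (0 : ℝ) ∈ _ from ⟨by linarith, by linarith⟩)
  refine D.key_ne e e' hu hv (h0.trans hr.1) (hr.2.trans h1) (h0'.trans hr.1) (hr.2.trans h1') ?_
  simp only at hr0
  linarith

/-- adjacency of vertices, as a symmetric relation -/
def AE (G : BipDAG) : G.Vert → G.Vert → Prop
  | Sum.inl u, Sum.inr v => G.adj u v
  | Sum.inr v, Sum.inl u => G.adj u v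
  | _, _ => False

noncomputable def cc : G.Vert → G.Vert → ℤ → ℝ
  | Sum.inl u, Sum.inr v, k => g (D.route u v) k
  | Sum.inr v, Sum.inl u, k => g (D.route u v) k
  | _, _, _ => 0

lemma AE_cases {x y : G.Vert} (h : AE G x y) : ∃ u v, G.adj u v ∧
    ((x = Sum.inl u ∧ y = Sum.inr v) ∨ (x = Sum.inr v ∧ y = Sum.inl u)) := by
  rcases x with x | x <;> rcases y with y | y
  · exact h.elim
  · exact ⟨x, y, h, Or.inl ⟨rfl, rfl⟩⟩
  · exact ⟨y, x, h, Or.inr ⟨rfl, rfl⟩⟩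
  · exact h.elim

lemma cc_inl_inr (u : Fin G.a) (v : Fin G.b) (k : ℤ) :
    D.cc (Sum.inl u) (Sum.inr v) k = g (D.route u v) k := rfl

lemma cc_inr_inl (u : Fin G.a) (v : Fin G.b) (k : ℤ) :
    D.cc (Sum.inr v) (Sum.inl u) k = g (D.route u v) k := rfl

lemma nc_iff (e : G.adj u v) (e' : G.adj u' v') (hu : u ≠ u') (hv : v ≠ v') {k : ℤ}
    (h0 : D.ht (Sum.inl u) ≤ k) (h1 : k + 1 ≤ D.ht (Sum.inr v))
    (h0' : D.ht (Sum.inl u') ≤ k) (h1' : k + 1 ≤ D.ht (Sum.inr v')) :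
    (g (D.route u v) k < g (D.route u' v') k ↔
      g (D.route u v) ((k + 1 : ℤ) : ℝ) < g (D.route u' v') ((k + 1 : ℤ) : ℝ)) := by
  have c0 : (D.ht (Sum.inl u) : ℝ) ≤ k := by exact_mod_cast h0
  have c1 : ((k + 1 : ℤ) : ℝ) ≤ D.ht (Sum.inr v) := by exact_mod_cast h1
  have c0' : (D.ht (Sum.inl u') : ℝ) ≤ k := by exact_mod_cast h0'
  have c1' : ((k + 1 : ℤ) : ℝ) ≤ D.ht (Sum.inr v') := by exact_mod_cast h1'
  have ck : (k : ℝ) ≤ ((k + 1 : ℤ) : ℝ) := by exact_mod_cast (by omega : k ≤ k + 1)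
  constructor
  · intro h
    exact D.key_nc e e' hu hv ck c0 c1 c0' c1' h
  · intro h
    by_contra hc
    have hne := D.key_ne e e' hu hv c0 (ck.trans c1) c0' (ck.trans c1')
    have hlt : g (D.route u' v') k < g (D.route u v) k :=
      lt_of_le_of_ne (not_lt.1 hc) (Ne.symm hne)
    have := D.key_nc e' e hu.symm hv.symm ck c0' c1' c0 c1 hlt
    linarith

/-- the level data of a drawing -/
noncomputable def toLD : LD G.Vert where
  E := AE G
  h := D.ht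
  X := D.xx
  c := D.cc
  symm {x y} h := by
    obtain ⟨u, v, e, ⟨rfl, rfl⟩ | ⟨rfl, rfl⟩⟩ := AE_cases h <;> exact e
  csymm x y k := by
    rcases x with x | x <;> rcases y with y | y <;> rfl
  cself {x y} h := by
    obtain ⟨u, v, e, ⟨rfl, rfl⟩ | ⟨rfl, rfl⟩⟩ := AE_cases h
    · exact D.g_bot e
    · exact D.g_top e
  hne {x y} h := by
    obtain ⟨u, v, e, ⟨rfl, rfl⟩ | ⟨rfl, rfl⟩⟩ := AE_cases h
    · exact (D.ht_lt e).ne
    · exact (D.ht_lt e).ne'
  ext {x y z} h h' := by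
    obtain ⟨u, v, e, ⟨rfl, rfl⟩ | ⟨rfl, rfl⟩⟩ := AE_cases h
    · obtain ⟨u', v', e', ⟨h1, rfl⟩ | ⟨h1, rfl⟩⟩ := AE_cases h'
      · cases h1
        have a := D.ht_lt e
        have b := D.ht_lt e'
        tauto
      · cases h1
    · obtain ⟨u', v', e', ⟨h1, rfl⟩ | ⟨h1, rfl⟩⟩ := AE_cases h'
      · cases h1
      · cases h1
        have a := D.ht_lt e
        have b := D.ht_lt e'
        constructor <;> intro h3 <;> omega
  ne {x y x' y' k} h h' n1 n2 n3 n4 r r' := by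
    obtain ⟨u, v, e, ⟨rfl, rfl⟩ | ⟨rfl, rfl⟩⟩ := AE_cases h <;>
    obtain ⟨u', v', e', ⟨rfl, rfl⟩ | ⟨rfl, rfl⟩⟩ := AE_cases h' <;>
    · have a := D.ht_lt e
      have b := D.ht_lt e'
      have hu : u ≠ u' := by rintro rfl; first | exact n1 rfl | exact n2 rfl | exact n3 rfl | exact n4 rfl
      have hv : v ≠ v' := by rintro rfl; first | exact n4 rfl | exact n3 rfl | exact n2 rfl | exact n1 rfl
      have c0 : D.ht (Sum.inl u) ≤ k := by omega
      have c1 : k ≤ D.ht (Sum.inr v) := by omega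
      have c0' : D.ht (Sum.inl u') ≤ k := by omega
      have c1' : k ≤ D.ht (Sum.inr v') := by omega
      exact D.key_ne e e' hu hv (by exact_mod_cast c0) (by exact_mod_cast c1)
        (by exact_mod_cast c0') (by exact_mod_cast c1')
  nc {x y x' y' k} h h' n1 n2 n3 n4 r r' := by
    obtain ⟨u, v, e, ⟨rfl, rfl⟩ | ⟨rfl, rfl⟩⟩ := AE_cases h <;>
    obtain ⟨u', v', e', ⟨rfl, rfl⟩ | ⟨rfl, rfl⟩⟩ := AE_cases h' <;>
    · have a := D.ht_lt e
      have b := D.ht_lt e'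
      have hu : u ≠ u' := by rintro rfl; first | exact n1 rfl | exact n2 rfl | exact n3 rfl | exact n4 rfl
      have hv : v ≠ v' := by rintro rfl; first | exact n4 rfl | exact n3 rfl | exact n2 rfl | exact n1 rfl
      exact D.nc_iff e e' hu hv (by omega) (by omega) (by omega) (by omega)
  intL {x y k} h r := by
    obtain ⟨u, v, e, ⟨rfl, rfl⟩ | ⟨rfl, rfl⟩⟩ := AE_cases h <;>
    · have a := D.ht_lt e
      have c0 : D.ht (Sum.inl u) ≤ k := by omega
      have c1 : k ≤ D.ht (Sum.inr v) := by omega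
      obtain ⟨k', b, h1, h2, h3, h4⟩ := g_ge _ _ (D.up e) (k : ℝ) (by exact_mod_cast c0)
        (by rw [top_append]; exact_mod_cast c1)
      rw [top_append] at h2
      exact ⟨k', by first | exact Or.inl ⟨h1, h2⟩ | exact Or.inr ⟨h1, h2⟩, b, h3, h4⟩
  intR {x y k} h r := by
    obtain ⟨u, v, e, ⟨rfl, rfl⟩ | ⟨rfl, rfl⟩⟩ := AE_cases h <;>
    · have a := D.ht_lt e
      have c0 : D.ht (Sum.inl u) ≤ k := by omega
      have c1 : k ≤ D.ht (Sum.inr v) := by omega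
      obtain ⟨k', b, h1, h2, h3, h4⟩ := g_le _ _ (D.up e) (k : ℝ) (by exact_mod_cast c0)
        (by rw [top_append]; exact_mod_cast c1)
      rw [top_append] at h2
      exact ⟨k', by first | exact Or.inl ⟨h1, h2⟩ | exact Or.inr ⟨h1, h2⟩, b, h3, h4⟩

/-- a point of the level data is a point of the drawing -/
lemma on_mem {x : ℝ} {k : ℤ} (h : LD.On D.toLD x k) {x₀ x₁ y₀ y₁ : ℝ}
    (hb : D.InBox x₀ x₁ y₀ y₁) : x₀ ≤ x ∧ x ≤ x₁ ∧ y₀ ≤ k ∧ (k : ℝ) ≤ y₁ := by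
  obtain ⟨a, b, e, r, rfl⟩ := h
  obtain ⟨u, v, e, ⟨rfl, rfl⟩ | ⟨rfl, rfl⟩⟩ := AE_cases e <;>
  · have ha := D.ht_lt e
    have r' : (D.ht (Sum.inl u) ≤ k ∧ k ≤ D.ht (Sum.inr v)) ∨
      (D.ht (Sum.inr v) ≤ k ∧ k ≤ D.ht (Sum.inl u)) := by
      first | exact r | exact r.symm
    have c0 : D.ht (Sum.inl u) ≤ k := by omega
    have c1 : k ≤ D.ht (Sum.inr v) := by omega
    have hm := hb.2 u v e (D.mem_curve e (t := k) (by exact_mod_cast c0) (by exact_mod_cast c1))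
    exact ⟨hm.1.1, hm.1.2, hm.2.1, hm.2.2⟩

/-- extents give area -/
lemma area_ge {r : ℕ} (h : LD.Big D.toLD r) {x₀ x₁ y₀ y₁ : ℝ}
    (hb : D.InBox x₀ x₁ y₀ y₁) : (2 * r : ℝ) ^ 2 ≤ (x₁ - x₀) * (y₁ - y₀) := by
  obtain ⟨⟨x, x', k, k', h1, h2, h3⟩, ⟨z, z', l, l', h4, h5, h6⟩⟩ := h
  have a1 := D.on_mem h1 hb
  have a2 := D.on_mem h2 hb
  have a3 := D.on_mem h4 hb
  have a4 := D.on_mem h5 hb
  have h6' : (l : ℝ) + 2 * r ≤ l' := by exact_mod_cast h6
  have b1 : (2 * r : ℝ) ≤ x₁ - x₀ := by linarith [a1.1, a2.2.1]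
  have b2 : (2 * r : ℝ) ≤ y₁ - y₀ := by linarith [a3.2.2.1, a4.2.2.2]
  have b3 : (0 : ℝ) ≤ 2 * r := by positivity
  nlinarith

end Drawing

end Pool.Agent.H560Bip
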